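import Mathlib

/-!
# Elementary bounds for character sums over finite fields
-/

set_option autoImplicit false

namespace Pool.Agent.Work.MP_9bdca2_co

open Finset ComplexConjugate

set_option linter.unusedSectionVars false

section MulCharBasic

variable {F : Type*} [Field F] [Fintype F]

theorem conj_mulChar (χ : MulChar F ℂ) (x : F) : conj (χ x) = χ⁻¹ x := by
  have := congrArg (fun φ : MulChar F ℂ => φ x) (MulChar.star_eq_inv χ)
  simpa [MulChar.star_apply] using this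

theorem norm_mulChar {χ : MulChar F ℂ} {x : F} (hx : x ≠ 0) : ‖χ x‖ = 1 := by
  have h1 : χ x * conj (χ x) = 1 := by
    rw [conj_mulChar, ← MulChar.mul_apply, mul_inv_cancel, MulChar.one_apply hx.isUnit]
  rw [Complex.mul_conj'] at h1
  have h2 : ‖χ x‖ ^ 2 = 1 := by exact_mod_cast h1
  have h3 := norm_nonneg (χ x)
  nlinarith

theorem norm_mulChar_le (χ : MulChar F ℂ) (x : F) : ‖χ x‖ ≤ 1 := by
  by_cases hx : x = 0
  · subst hx
    rw [MulChar.map_zero, norm_zero]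
    exact zero_le_one
  · exact (norm_mulChar hx).le

theorem mulChar_mul_inv {χ : MulChar F ℂ} {x : F} (hx : x ≠ 0) : χ x * χ⁻¹ x = 1 := by
  rw [← MulChar.mul_apply, mul_inv_cancel, MulChar.one_apply hx.isUnit]

theorem inv_mulChar_apply (χ : MulChar F ℂ) (x : F) : χ⁻¹ x = (χ x)⁻¹ := by
  rw [MulChar.inv_apply_eq_inv']

theorem card_ge_one (F : Type*) [Field F] [Fintype F] : (1 : ℝ) ≤ Fintype.card F := by
  exact_mod_cast Fintype.card_pos

theorem sq_norm_eq_of_mul_conj {z : ℂ} {r : ℝ} (h : z * conj z = r) : ‖z‖ ^ 2 = r := by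
  rw [Complex.mul_conj'] at h
  exact_mod_cast h

theorem card_cast_ne_zero (F : Type*) [Field F] [Fintype F] : ringChar ℂ ≠ ringChar F := by
  rw [ringChar.eq_zero]
  exact (CharP.char_ne_zero_of_finite F (ringChar F)).symm

/-- Jacobi sums have absolute value at most the square root of the cardinality. -/
theorem norm_jacobi_le {χ ψ : MulChar F ℂ} (h : χ ≠ 1 ∨ ψ ≠ 1) :
    ‖∑ x : F, χ x * ψ (1 - x)‖ ≤ √(Fintype.card F) := by
  classical
  have hq : (1 : ℝ) ≤ √(Fintype.card F) := by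
    rw [Real.one_le_sqrt]; exact card_ge_one F
  change ‖jacobiSum χ ψ‖ ≤ _
  by_cases h1 : χ = 1
  · subst h1
    have h2 : ψ ≠ 1 := by simpa using h
    rw [jacobiSum_one_nontrivial h2, norm_neg, norm_one]
    exact hq
  by_cases h2 : ψ = 1
  · subst h2
    rw [jacobiSum_comm, jacobiSum_one_nontrivial h1, norm_neg, norm_one]
    exact hq
  by_cases h3 : χ * ψ = 1
  · have h4 : ψ = χ⁻¹ := by rw [eq_inv_iff_mul_eq_one, mul_comm]; exact h3
    subst h4
    rw [jacobiSum_nontrivial_inv h1, norm_neg]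
    exact (norm_mulChar_le _ _).trans hq
  · have h4 := jacobiSum_mul_jacobiSum_inv (card_cast_ne_zero F) h1 h2 h3
    have h5 : jacobiSum χ⁻¹ ψ⁻¹ = conj (jacobiSum χ ψ) := by
      unfold jacobiSum
      rw [map_sum]
      refine sum_congr rfl fun x _ => ?_
      rw [map_mul, conj_mulChar, conj_mulChar]
    rw [h5] at h4
    have h6 := sq_norm_eq_of_mul_conj (r := Fintype.card F) (by rw [h4]; norm_cast)
    rw [← h6, Real.sqrt_sq (norm_nonneg _)]

/-- Gauss sums. -/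
theorem norm_gauss_le {χ : MulChar F ℂ} (hχ : χ ≠ 1) {e : AddChar F ℂ} (he : e.IsPrimitive) :
    ‖∑ x : F, χ x * e x‖ ≤ √(Fintype.card F) := by
  classical
  have h4 := gaussSum_mul_gaussSum_eq_card hχ he
  have h5 : gaussSum χ⁻¹ e⁻¹ = conj (gaussSum χ e) := by
    unfold gaussSum
    rw [map_sum]
    refine sum_congr rfl fun x _ => ?_
    rw [map_mul, conj_mulChar, AddChar.inv_apply, AddChar.map_neg_eq_conj]
  rw [h5] at h4
  have h6 := sq_norm_eq_of_mul_conj (r := Fintype.card F) (by rw [h4]; norm_cast)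
  change ‖gaussSum χ e‖ ≤ _
  rw [← h6, Real.sqrt_sq (norm_nonneg _)]

end MulCharBasic

section Energy

/-- Second moment of correlations with a function whose shifted correlations are `-1`. -/
theorem second_moment {F : Type*} [Field F] [Fintype F] [DecidableEq F] (a b : F → ℂ)
    (hb : ∀ v w : F, ∑ μ, b (v + μ) * conj (b (w + μ)) =
      (if v = w then (Fintype.card F : ℂ) else 0) - 1) :
    ∑ μ, ‖∑ v, a v * b (v + μ)‖ ^ 2 ≤ Fintype.card F * ∑ v, ‖a v‖ ^ 2 := by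
  have h1 : ((∑ μ, ‖∑ v, a v * b (v + μ)‖ ^ 2 : ℝ) : ℂ) =
      ((Fintype.card F * ∑ v, ‖a v‖ ^ 2 - ‖∑ v, a v‖ ^ 2 : ℝ) : ℂ) := by
    push_cast
    simp_rw [← Complex.mul_conj', map_sum, map_mul, sum_mul_sum]
    rw [sum_comm, mul_sum]
    simp_rw [← sum_sub_distrib]
    refine sum_congr rfl fun v _ => ?_
    rw [sum_comm]
    have h2 : ∀ w : F, ∑ μ, a v * b (v + μ) * (conj (a w) * conj (b (w + μ))) =
        (if v = w then (Fintype.card F : ℂ) * (a v * conj (a w)) else 0) - a v * conj (a w) := by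
      intro w
      have : ∑ μ, a v * b (v + μ) * (conj (a w) * conj (b (w + μ))) =
          a v * conj (a w) * ∑ μ, b (v + μ) * conj (b (w + μ)) := by
        rw [mul_sum]
        exact sum_congr rfl fun μ _ => by ring
      rw [this, hb]
      split_ifs with h
      · ring
      · ring
    rw [sum_congr rfl fun w _ => h2 w, sum_sub_distrib]
    simp
  have h3 : ∑ μ, ‖∑ v, a v * b (v + μ)‖ ^ 2 =
      Fintype.card F * ∑ v, ‖a v‖ ^ 2 - ‖∑ v, a v‖ ^ 2 := by exact_mod_cast h1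
  rw [h3]
  have := sq_nonneg ‖∑ v, a v‖
  linarith

/-- Shifted correlations of a nontrivial character. -/
theorem shifted_corr {F : Type*} [Field F] [Fintype F] [DecidableEq F] {χ : MulChar F ℂ}
    (hχ : χ ≠ 1) (v w : F) :
    ∑ μ, χ (v + μ) * conj (χ (w + μ)) = (if v = w then (Fintype.card F : ℂ) else 0) - 1 := by
  simp_rw [conj_mulChar]
  split_ifs with h
  · subst h
    have hs : ∑ x, χ (v + x) * χ⁻¹ (v + x) = ∑ x, χ x * χ⁻¹ x :=
      Equiv.sum_comp (Equiv.addLeft v) (fun x => χ x * χ⁻¹ x)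
    rw [hs]
    rw [← Finset.add_sum_erase _ _ (mem_univ (0 : F))]
    rw [sum_congr rfl fun x hx => mulChar_mul_inv (χ := χ) (mem_erase.1 hx).1]
    rw [sum_const, card_erase_of_mem (mem_univ _), card_univ, MulChar.map_zero, zero_mul, zero_add,
      nsmul_eq_mul, mul_one, Nat.cast_sub Fintype.card_pos]
    simp
  · have hd : v - w ≠ 0 := sub_ne_zero.2 h
    have hneg : χ (-1) * χ (-1) = 1 := by
      rw [← map_mul, neg_mul_neg, one_mul, map_one]
    have h0 : ∑ μ, χ (v + μ) * χ⁻¹ (w + μ) =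
        ∑ x : F, χ (v + (-w - (v - w) * x)) * χ⁻¹ (w + (-w - (v - w) * x)) := by
      refine (Function.Bijective.sum_comp (Function.bijective_iff_has_inverse.2
        ⟨fun y => (-w - y) / (v - w), fun x => ?_, fun y => ?_⟩)
        (fun μ => χ (v + μ) * χ⁻¹ (w + μ))).symm
      · field_simp
        ring
      · field_simp
        ring
    have h1 : ∀ x : F, χ (v + (-w - (v - w) * x)) * χ⁻¹ (w + (-w - (v - w) * x)) =
        χ (-1) * (χ⁻¹ x * χ (1 - x)) := by
      intro x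
      have e1 : v + (-w - (v - w) * x) = (v - w) * (1 - x) := by ring
      have e2 : w + (-w - (v - w) * x) = (v - w) * (-1 * x) := by ring
      rw [e1, e2, map_mul, map_mul, map_mul]
      have e3 := mulChar_mul_inv (χ := χ) hd
      have e4 : χ⁻¹ (-1) = χ (-1) := by
        have := mulChar_mul_inv (χ := χ) (x := -1) (by simp)
        calc χ⁻¹ (-1) = (χ (-1) * χ (-1)) * χ⁻¹ (-1) := by rw [hneg, one_mul]
          _ = χ (-1) * (χ (-1) * χ⁻¹ (-1)) := by ring
          _ = χ (-1) := by rw [this, mul_one]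
      rw [e4]
      linear_combination (χ (-1) * χ⁻¹ x * χ (1 - x)) * e3
    rw [h0, sum_congr rfl fun x _ => h1 x, ← mul_sum]
    have h2 : ∑ x : F, χ⁻¹ x * χ (1 - x) = -χ⁻¹ (-1) := by
      have := jacobiSum_nontrivial_inv (χ := χ⁻¹) (inv_ne_one.2 hχ)
      rw [inv_inv] at this
      exact this
    rw [h2]
    have := mulChar_mul_inv (χ := χ) (x := -1) (by simp)
    linear_combination -this

/-- The basic three point sum. -/
noncomputable def R3 {F : Type*} [Field F] [Fintype F] (χ : MulChar F ℂ) (μ : F) : ℂ :=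
  ∑ v : F, χ (v + 1) * χ⁻¹ v * χ⁻¹ (v + μ)

theorem sum_norm_R3_sq_le {F : Type*} [Field F] [Fintype F] {χ : MulChar F ℂ}
    (hχ : χ ≠ 1) : ∑ μ, ‖R3 χ μ‖ ^ 2 ≤ (Fintype.card F : ℝ) ^ 2 := by
  classical
  have h := second_moment (fun v : F => χ (v + 1) * χ⁻¹ v) (fun v => χ⁻¹ v)
    (shifted_corr (inv_ne_one.2 hχ))
  unfold R3
  refine h.trans ?_
  rw [sq]
  refine mul_le_mul_of_nonneg_left ?_ (Nat.cast_nonneg _)
  calc ∑ v : F, ‖χ (v + 1) * χ⁻¹ v‖ ^ 2 ≤ ∑ v : F, (1 : ℝ) := by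
        refine sum_le_sum fun v _ => ?_
        have h1 := norm_mulChar_le χ (v + 1)
        have h2 := norm_mulChar_le χ⁻¹ v
        rw [norm_mul]
        have h3 : ‖χ (v + 1)‖ * ‖χ⁻¹ v‖ ≤ 1 := mul_le_one₀ h1 (norm_nonneg _) h2
        have h4 : 0 ≤ ‖χ (v + 1)‖ * ‖χ⁻¹ v‖ := by positivity
        nlinarith
    _ = Fintype.card F := by simp

/-- The general sum `∑ χ((αv+β)/((γv+δ)v))` reduces to `R3`. -/
theorem norm_sum_eq_R3 {F : Type*} [Field F] [Fintype F] (χ : MulChar F ℂ) {α β γ δ : F}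
    (hα : α ≠ 0) (hβ : β ≠ 0) (hγ : γ ≠ 0) :
    ‖∑ v : F, χ (α * v + β) * χ⁻¹ (γ * v + δ) * χ⁻¹ v‖ = ‖R3 χ (α * δ / (β * γ))‖ := by
  have h0 : ∑ v : F, χ (α * v + β) * χ⁻¹ (γ * v + δ) * χ⁻¹ v =
      ∑ v : F, χ (α * (β / α * v) + β) * χ⁻¹ (γ * (β / α * v) + δ) * χ⁻¹ (β / α * v) :=
    (Equiv.sum_comp (Equiv.mulLeft₀ (β / α) (div_ne_zero hβ hα))
      (fun v => χ (α * v + β) * χ⁻¹ (γ * v + δ) * χ⁻¹ v)).symm
  have h1 : ∀ v : F, χ (α * (β / α * v) + β) * χ⁻¹ (γ * (β / α * v) + δ) * χ⁻¹ (β / α * v) =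
      χ β * χ⁻¹ (γ * β / α) * χ⁻¹ (β / α) * (χ (v + 1) * χ⁻¹ v * χ⁻¹ (v + α * δ / (β * γ))) := by
    intro v
    have e1 : α * (β / α * v) + β = β * (v + 1) := by field_simp
    have e2 : γ * (β / α * v) + δ = γ * β / α * (v + α * δ / (β * γ)) := by field_simp
    rw [e1, e2, map_mul, map_mul, map_mul]
    ring
  rw [h0, sum_congr rfl fun v _ => h1 v, ← mul_sum, norm_mul, norm_mul, norm_mul,
    norm_mulChar hβ, norm_mulChar (div_ne_zero (mul_ne_zero hγ hβ) hα),
    norm_mulChar (div_ne_zero hβ hα), one_mul, one_mul, one_mul]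
  rfl

/-- Summing over a parameter along an at most two-to-one map. -/
theorem sum_two_to_one {α β : Type*} [Fintype β] [DecidableEq β] (S : Finset α) (g : α → β)
    (f : β → ℝ) (hf : ∀ b, 0 ≤ f b) (h : ∀ b, (S.filter (fun a => g a = b)).card ≤ 2) :
    ∑ a ∈ S, f (g a) ≤ 2 * ∑ b, f b := by
  rw [Finset.sum_comp, mul_sum]
  refine (sum_le_sum (g := fun b => 2 * f b) fun b _ => ?_).trans
    (sum_le_sum_of_subset_of_nonneg (subset_univ _) fun b _ _ => by have := hf b; linarith)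
  rw [nsmul_eq_mul]
  exact mul_le_mul_of_nonneg_right (by exact_mod_cast h b) (hf b)

/-- Splitting a sum over a field into zero and units. -/
theorem sum_field_eq {F : Type*} [Field F] [Fintype F] [DecidableEq F] (f : F → ℂ) :
    ∑ x : F, f x = f 0 + ∑ x : Fˣ, f x := by
  rw [← Finset.add_sum_erase _ _ (mem_univ (0 : F))]
  congr 1
  refine Finset.sum_bij' (fun x hx => Units.mk0 x (mem_erase.1 hx).1) (fun x _ => (x : F)) ?_ ?_ ?_
    ?_ ?_
  · intro x _; exact mem_univ _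
  · intro x _; exact mem_erase.2 ⟨x.ne_zero, mem_univ _⟩
  · intro x hx; rfl
  · intro x hx; exact Units.ext rfl
  · intro x hx; rfl

/-- The van der Corput inequality in fourth power form. -/
theorem vdc {A : Type*} [AddCommGroup A] [Fintype A] (e : A → ℂ)
    (he : ∀ x y, e (x + y) = e x * e y) (hn : ∀ x, ‖e x‖ = 1) (G : A → ℂ) :
    ‖∑ x, e x * G x‖ ^ 4 ≤ Fintype.card A * ∑ h, ‖∑ x, G (x + h) * conj (G x)‖ ^ 2 := by
  have h1 : (∑ x, e x * G x) * conj (∑ x, e x * G x) =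
      ∑ h, e h * ∑ x, G (x + h) * conj (G x) := by
    rw [map_sum, sum_mul_sum, sum_comm]
    have h2 : ∀ y : A, ∑ x, e x * G x * conj (e y * G y) =
        ∑ h, e h * (G (y + h) * conj (G y)) := by
      intro y
      rw [← Equiv.sum_comp (Equiv.addLeft y)]
      refine sum_congr rfl fun h _ => ?_
      rw [Equiv.coe_addLeft, he, map_mul]
      have h3 : e y * conj (e y) = 1 := by
        rw [Complex.mul_conj', hn]; simp
      linear_combination (e h * G (y + h) * conj (G y)) * h3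
    rw [sum_congr rfl fun y _ => h2 y, sum_comm]
    refine sum_congr rfl fun h _ => ?_
    rw [mul_sum]
  have h4 : ‖∑ x, e x * G x‖ ^ 2 ≤ ∑ h, ‖∑ x, G (x + h) * conj (G x)‖ := by
    have h5 : ‖∑ x, e x * G x‖ ^ 2 = ‖(∑ x, e x * G x) * conj (∑ x, e x * G x)‖ := by
      rw [norm_mul, RCLike.norm_conj, sq]
    rw [h5, h1]
    refine (norm_sum_le _ _).trans (sum_le_sum fun h _ => ?_)
    rw [norm_mul, hn, one_mul]
  have h6 : ‖∑ x, e x * G x‖ ^ 4 = (‖∑ x, e x * G x‖ ^ 2) ^ 2 := by ring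
  rw [h6]
  refine (pow_le_pow_left₀ (by positivity) h4 2).trans ?_
  have := sq_sum_le_card_mul_sum_sq (s := (univ : Finset A))
    (f := fun h => ‖∑ x, G (x + h) * conj (G x)‖)
  simpa using this

/-- The van der Corput inequality in fourth power form, multiplicative version. -/
theorem vdc_mul {A : Type*} [CommGroup A] [Fintype A] (e : A → ℂ)
    (he : ∀ x y, e (x * y) = e x * e y) (hn : ∀ x, ‖e x‖ = 1) (G : A → ℂ) :
    ‖∑ x, e x * G x‖ ^ 4 ≤ Fintype.card A * ∑ h, ‖∑ x, G (x * h) * conj (G x)‖ ^ 2 := by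
  have h1 : (∑ x, e x * G x) * conj (∑ x, e x * G x) =
      ∑ h, e h * ∑ x, G (x * h) * conj (G x) := by
    rw [map_sum, sum_mul_sum, sum_comm]
    have h2 : ∀ y : A, ∑ x, e x * G x * conj (e y * G y) =
        ∑ h, e h * (G (y * h) * conj (G y)) := by
      intro y
      rw [← Equiv.sum_comp (Equiv.mulLeft y)]
      refine sum_congr rfl fun h _ => ?_
      rw [Equiv.coe_mulLeft, he, map_mul]
      have h3 : e y * conj (e y) = 1 := by
        rw [Complex.mul_conj', hn]; simp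
      linear_combination (e h * G (y * h) * conj (G y)) * h3
    rw [sum_congr rfl fun y _ => h2 y, sum_comm]
    refine sum_congr rfl fun h _ => ?_
    rw [mul_sum]
  have h4 : ‖∑ x, e x * G x‖ ^ 2 ≤ ∑ h, ‖∑ x, G (x * h) * conj (G x)‖ := by
    have h5 : ‖∑ x, e x * G x‖ ^ 2 = ‖(∑ x, e x * G x) * conj (∑ x, e x * G x)‖ := by
      rw [norm_mul, RCLike.norm_conj, sq]
    rw [h5, h1]
    refine (norm_sum_le _ _).trans (sum_le_sum fun h _ => ?_)
    rw [norm_mul, hn, one_mul]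
  have h6 : ‖∑ x, e x * G x‖ ^ 4 = (‖∑ x, e x * G x‖ ^ 2) ^ 2 := by ring
  rw [h6]
  refine (pow_le_pow_left₀ (by positivity) h4 2).trans ?_
  have := sq_sum_le_card_mul_sum_sq (s := (univ : Finset A))
    (f := fun h => ‖∑ x, G (x * h) * conj (G x)‖)
  simpa using this

/-- Bounding a sum of squares with at most three exceptional parameters. -/
theorem sum_sq_le_of_except {α : Type*} [DecidableEq α] (U E : Finset α) (T R : α → ℝ) (q : ℝ)
    (hq : 1 ≤ q) (hU : (U.card : ℝ) ≤ q)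
    (hE : (E.card : ℝ) ≤ 3) (hT0 : ∀ a, 0 ≤ T a) (hTq : ∀ a ∈ U, T a ≤ q)
    (hTR : ∀ a ∈ U \ E, T a ≤ R a + 2) (hR0 : ∀ a, 0 ≤ R a)
    (hR : ∑ a ∈ U \ E, R a ^ 2 ≤ 2 * q ^ 2) : ∑ a ∈ U, T a ^ 2 ≤ 15 * q ^ 2 := by
  have h1 : ∑ a ∈ U, T a ^ 2 = ∑ a ∈ U \ E, T a ^ 2 + ∑ a ∈ U ∩ E, T a ^ 2 := by
    rw [← Finset.sum_sdiff (Finset.inter_subset_left : U ∩ E ⊆ U), Finset.sdiff_inter_self_left]
  have h2 : ∑ a ∈ U \ E, T a ^ 2 ≤ ∑ a ∈ U \ E, (2 * R a ^ 2 + 8) := by
    refine sum_le_sum fun a ha => ?_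
    have := hTR a ha
    have h3 := hT0 a
    have h4 := hR0 a
    nlinarith [sq_nonneg (R a - 2)]
  have h3 : ∑ a ∈ U \ E, (2 * R a ^ 2 + 8) ≤ 2 * (2 * q ^ 2) + 8 * q := by
    rw [sum_add_distrib, ← mul_sum, sum_const, nsmul_eq_mul]
    have : ((U \ E).card : ℝ) ≤ q := le_trans (by exact_mod_cast card_le_card sdiff_subset) hU
    nlinarith
  have h4 : ∑ a ∈ U ∩ E, T a ^ 2 ≤ 3 * q ^ 2 := by
    calc ∑ a ∈ U ∩ E, T a ^ 2 ≤ ∑ a ∈ U ∩ E, q ^ 2 := by
          refine sum_le_sum fun a ha => ?_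
          exact pow_le_pow_left₀ (hT0 a) (hTq a (mem_inter.1 ha).1) 2
      _ = ((U ∩ E).card : ℝ) * q ^ 2 := by rw [sum_const, nsmul_eq_mul]
      _ ≤ 3 * q ^ 2 := by
          apply mul_le_mul_of_nonneg_right _ (by positivity)
          exact le_trans (by exact_mod_cast card_le_card inter_subset_right) hE
  rw [h1]
  nlinarith

end Energy

end Pool.Agent.Work.MP_9bdca2_co
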