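import Mathlib
import Pool.Agent.Work.MP_9bdca2_co.CharSums

/-!
# The four point sums and the mixed sums
-/

set_option autoImplicit false
set_option linter.unusedSectionVars false

namespace Pool.Agent.Work.MP_9bdca2_co

open Finset ComplexConjugate

variable {F : Type*} [Field F] [Fintype F]

/-- Sum of norms bounded by cardinality. -/
theorem norm_sum_le_card {ι : Type*} (S : Finset ι) (f : ι → ℂ) (h : ∀ i ∈ S, ‖f i‖ ≤ 1) :
    ‖∑ i ∈ S, f i‖ ≤ S.card := by
  refine (norm_sum_le _ _).trans ?_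
  refine (sum_le_sum h).trans ?_
  simp

/-- A product of character values has norm at most one. -/
theorem norm_mul_le_one {a b : ℂ} (ha : ‖a‖ ≤ 1) (hb : ‖b‖ ≤ 1) : ‖a * b‖ ≤ 1 := by
  rw [norm_mul]
  exact mul_le_one₀ ha (norm_nonneg _) hb

/-- The four point sum of type `(χ, χ⁻¹; ψ, ψ⁻¹)`. -/
theorem norm_K_le (h2 : (2 : F) ≠ 0) (χ : MulChar F ℂ) {ψ : MulChar F ℂ} (hψ : ψ ≠ 1) :
    ‖∑ w : F, χ w * (ψ (w - 1) * ψ⁻¹ (2 - w))‖ ^ 4 ≤ 15 * (Fintype.card F : ℝ) ^ 3 := by
  classical
  set q : ℝ := (Fintype.card F : ℝ) with hq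
  have hq1 : 1 ≤ q := card_ge_one F
  have hcard : (Fintype.card Fˣ : ℝ) ≤ q := by
    rw [hq]; exact_mod_cast (Fintype.card_le_of_injective (fun x : Fˣ => (x : F)) Units.val_injective)
  set G : Fˣ → ℂ := fun w => ψ ((w : F) - 1) * ψ⁻¹ (2 - (w : F)) with hG
  have h0 : ∑ w : F, χ w * (ψ (w - 1) * ψ⁻¹ (2 - w)) = ∑ w : Fˣ, χ (w : F) * G w := by
    rw [sum_field_eq, MulChar.map_zero, zero_mul, zero_add]
  -- apply van der Corput on the additive version of the unit group
  have hv' : ‖∑ w : Fˣ, χ (w : F) * G w‖ ^ 4 ≤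
      Fintype.card Fˣ * ∑ c : Fˣ, ‖∑ w : Fˣ, G (w * c) * conj (G w)‖ ^ 2 :=
    vdc_mul (A := Fˣ) (fun w => χ (w : F)) (fun x y => by rw [Units.val_mul, map_mul])
      (fun x => norm_mulChar (Units.ne_zero _)) G
  rw [h0]
  refine hv'.trans ?_
  -- the function after the change of variables
  set α : Fˣ → F := fun c => 2 * (c : F) - 1 with hα
  set β : Fˣ → F := fun c => (c : F) - 1 with hβ
  set γ : Fˣ → F := fun c => 2 - 2 * (c : F) with hγ
  set δ : Fˣ → F := fun c => 2 - (c : F) with hδ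
  have hT : ∀ c : Fˣ, ‖∑ w : Fˣ, G (w * c) * conj (G w)‖ ≤
      ‖∑ v : F, ψ (α c * v + β c) * ψ⁻¹ (γ c * v + δ c) * ψ⁻¹ v‖ + 2 := by
    intro c
    set h : F → ℂ := fun w => ψ (w * c - 1) * ψ⁻¹ (2 - w * c) * (ψ⁻¹ (w - 1) * ψ (2 - w)) with hh
    set h' : F → ℂ := fun v => ψ (α c * v + β c) * ψ⁻¹ (γ c * v + δ c) * ψ⁻¹ v with hh'
    have e1 : ∑ w : Fˣ, G (w * c) * conj (G w) = ∑ w : F, h w - h 0 := by
      rw [sum_field_eq h, add_sub_cancel_left]
      refine sum_congr rfl fun w _ => ?_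
      rw [hG, hh]
      simp only [Units.val_mul, map_mul, conj_mulChar, inv_inv]
    have e2 : ∑ w : F, h w = ∑ w ∈ univ.erase 2, h w := by
      rw [← Finset.add_sum_erase _ _ (mem_univ (2 : F))]
      have : h 2 = 0 := by
        simp only [hh, sub_self, MulChar.map_zero, mul_zero]
      rw [this, zero_add]
    have e3 : ∑ w ∈ univ.erase (2 : F), h w = ∑ v ∈ univ.erase (-1 : F), h' v := by
      refine Finset.sum_bij' (fun w _ => (w - 1) / (2 - w)) (fun v _ => (1 + 2 * v) / (1 + v))
        ?_ ?_ ?_ ?_ ?_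
      · intro w hw
        have hw' : (2 : F) - w ≠ 0 := sub_ne_zero.2 (Ne.symm (mem_erase.1 hw).1)
        refine mem_erase.2 ⟨?_, mem_univ _⟩
        intro h3
        rw [div_eq_iff hw'] at h3
        have : (1 : F) = 0 := by linear_combination h3
        exact one_ne_zero this
      · intro v hv
        have hv' : (1 : F) + v ≠ 0 := by
          intro h3
          exact (mem_erase.1 hv).1 (eq_neg_of_add_eq_zero_right h3)
        refine mem_erase.2 ⟨?_, mem_univ _⟩
        intro h3
        rw [div_eq_iff hv'] at h3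
        have : (1 : F) = 0 := by linear_combination -h3
        exact one_ne_zero this
      · intro w hw
        have hw' : (2 : F) - w ≠ 0 := sub_ne_zero.2 (Ne.symm (mem_erase.1 hw).1)
        have hw'' : (1 : F) + (w - 1) / (2 - w) ≠ 0 := by
          rw [show (1 : F) + (w - 1) / (2 - w) = 1 / (2 - w) by field_simp; ring]
          exact one_div_ne_zero hw'
        rw [div_eq_iff hw'']
        field_simp
        ring
      · intro v hv
        have hv' : (1 : F) + v ≠ 0 := by
          intro h3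
          exact (mem_erase.1 hv).1 (eq_neg_of_add_eq_zero_right h3)
        have hv'' : (2 : F) - (1 + 2 * v) / (1 + v) ≠ 0 := by
          rw [show (2 : F) - (1 + 2 * v) / (1 + v) = 1 / (1 + v) by field_simp; ring]
          exact one_div_ne_zero hv'
        rw [div_eq_iff hv'']
        field_simp
        ring
      · intro w hw
        have hw' : (2 : F) - w ≠ 0 := sub_ne_zero.2 (Ne.symm (mem_erase.1 hw).1)
        rw [hh, hh']
        simp only
        have f1 : α c * ((w - 1) / (2 - w)) + β c = (w * c - 1) / (2 - w) := by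
          rw [hα, hβ]; field_simp; ring
        have f2 : γ c * ((w - 1) / (2 - w)) + δ c = (2 - w * c) / (2 - w) := by
          rw [hγ, hδ]; field_simp; ring
        rw [f1, f2, div_eq_mul_inv, div_eq_mul_inv, div_eq_mul_inv, map_mul, map_mul, map_mul]
        have g1 := mulChar_mul_inv (χ := ψ) (inv_ne_zero hw')
        have g2 : ψ⁻¹ (2 - w)⁻¹ = ψ (2 - w) := by
          rw [MulChar.inv_apply', inv_inv]
        rw [g2] at g1 ⊢
        linear_combination (-(ψ (w * c - 1) * ψ⁻¹ (2 - w * c) * ψ⁻¹ (w - 1) * ψ (2 - w))) * g1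
    have e4 : ∑ v ∈ univ.erase (-1 : F), h' v = ∑ v : F, h' v - h' (-1) := by
      rw [← Finset.add_sum_erase _ _ (mem_univ (-1 : F)), add_sub_cancel_left]
    rw [e1, e2, e3, e4]
    have n1 : ‖h 0‖ ≤ 1 := norm_mul_le_one (norm_mul_le_one (norm_mulChar_le _ _)
      (norm_mulChar_le _ _)) (norm_mul_le_one (norm_mulChar_le _ _) (norm_mulChar_le _ _))
    have n2 : ‖h' (-1)‖ ≤ 1 := norm_mul_le_one (norm_mul_le_one (norm_mulChar_le _ _)
      (norm_mulChar_le _ _)) (norm_mulChar_le _ _)
    calc ‖∑ v : F, h' v - h' (-1) - h 0‖ ≤ ‖∑ v : F, h' v - h' (-1)‖ + ‖h 0‖ := norm_sub_le _ _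
      _ ≤ ‖∑ v : F, h' v‖ + ‖h' (-1)‖ + ‖h 0‖ := by
          have := norm_sub_le (∑ v : F, h' v) (h' (-1)); linarith
      _ ≤ ‖∑ v : F, h' v‖ + 2 := by linarith
  have hTq : ∀ c : Fˣ, ‖∑ w : Fˣ, G (w * c) * conj (G w)‖ ≤ q := by
    intro c
    refine (norm_sum_le_card _ _ fun w _ => ?_).trans (by rw [card_univ]; exact hcard)
    refine norm_mul_le_one ?_ ?_
    · exact norm_mul_le_one (norm_mulChar_le _ _) (norm_mulChar_le _ _)
    · rw [RCLike.norm_conj]
      exact norm_mul_le_one (norm_mulChar_le _ _) (norm_mulChar_le _ _)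
  -- exceptional parameters
  set E : Finset Fˣ := {1, (Units.mk0 2 h2)⁻¹, Units.mk0 2 h2} with hE
  have hEcard : (E.card : ℝ) ≤ 3 := by exact_mod_cast Finset.card_le_three
  have hmain := sum_sq_le_of_except (univ : Finset Fˣ) E
    (fun c => ‖∑ w : Fˣ, G (w * c) * conj (G w)‖)
    (fun c => ‖∑ v : F, ψ (α c * v + β c) * ψ⁻¹ (γ c * v + δ c) * ψ⁻¹ v‖) q hq1
    (by rw [card_univ]; exact hcard) hEcard (fun _ => norm_nonneg _) (fun c _ => hTq c)
    (fun c _ => hT c) (fun _ => norm_nonneg _) ?_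
  · calc (Fintype.card Fˣ : ℝ) * ∑ c : Fˣ, ‖∑ w : Fˣ, G (w * c) * conj (G w)‖ ^ 2
        ≤ q * (15 * q ^ 2) := by
          apply mul_le_mul hcard hmain (sum_nonneg fun _ _ => by positivity) (by linarith)
      _ = 15 * q ^ 3 := by ring
  · have hne : ∀ c ∈ univ \ E, (c : F) ≠ 1 ∧ 2 * (c : F) ≠ 1 ∧ (c : F) ≠ 2 := by
      intro c hc
      have hc' := (mem_sdiff.1 hc).2
      rw [hE] at hc'
      simp only [mem_insert, mem_singleton, not_or] at hc'
      refine ⟨fun h => hc'.1 (Units.ext h), fun h => hc'.2.1 ?_, fun h => hc'.2.2 (Units.ext h)⟩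
      rw [eq_inv_iff_mul_eq_one]
      ext
      rw [Units.val_mul, Units.val_mk0, mul_comm, h, Units.val_one]
    have hαβγδ : ∀ c ∈ univ \ E, α c ≠ 0 ∧ β c ≠ 0 ∧ γ c ≠ 0 := by
      intro c hc
      obtain ⟨h1, h3, h4⟩ := hne c hc
      refine ⟨sub_ne_zero.2 h3, sub_ne_zero.2 h1, ?_⟩
      have : (2 : F) - 2 * c = 2 * (1 - c) := by ring
      rw [hγ]
      simp only
      rw [this]
      exact mul_ne_zero h2 (sub_ne_zero.2 (Ne.symm h1))
    calc ∑ c ∈ univ \ E, ‖∑ v : F, ψ (α c * v + β c) * ψ⁻¹ (γ c * v + δ c) * ψ⁻¹ v‖ ^ 2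
        = ∑ c ∈ univ \ E, (fun μ => ‖R3 ψ μ‖ ^ 2) (α c * δ c / (β c * γ c)) := by
          refine sum_congr rfl fun c hc => ?_
          obtain ⟨h1, h3, h4⟩ := hαβγδ c hc
          rw [norm_sum_eq_R3 ψ h1 h3 h4]
      _ ≤ 2 * ∑ μ : F, ‖R3 ψ μ‖ ^ 2 := by
          refine sum_two_to_one (univ \ E) (fun c => α c * δ c / (β c * γ c))
            (fun μ => ‖R3 ψ μ‖ ^ 2) (fun μ => by positivity) fun μ => ?_
          rcases ((univ \ E).filter (fun c => α c * δ c / (β c * γ c) = μ)).eq_empty_or_nonempty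
            with h5 | ⟨c₀, hc₀⟩
          · rw [h5]; simp
          · refine le_trans (card_le_card (t := {c₀, c₀⁻¹}) fun c hc => ?_) Finset.card_le_two
            obtain ⟨hc1, hc2⟩ := mem_filter.1 hc
            obtain ⟨hc3, hc4⟩ := mem_filter.1 hc₀
            obtain ⟨-, k1, k2⟩ := hαβγδ c hc1
            obtain ⟨-, k3, k4⟩ := hαβγδ c₀ hc3
            have h6 : α c * δ c / (β c * γ c) = α c₀ * δ c₀ / (β c₀ * γ c₀) := by
              rw [hc2, hc4]
            rw [div_eq_div_iff (mul_ne_zero k1 k2) (mul_ne_zero k3 k4)] at h6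
            have h7 : (2 : F) * (((c : F) - c₀) * (c * c₀ - 1)) = 0 := by
              simp only [hα, hβ, hγ, hδ] at h6
              linear_combination h6
            rcases mul_eq_zero.1 h7 with h8 | h8
            · exact absurd h8 h2
            rcases mul_eq_zero.1 h8 with h9 | h9
            · rw [mem_insert]; left
              exact Units.ext (sub_eq_zero.1 h9)
            · rw [mem_insert, mem_singleton]; right
              rw [eq_inv_iff_mul_eq_one]
              ext
              rw [Units.val_mul, Units.val_one]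
              exact sub_eq_zero.1 h9
      _ ≤ 2 * q ^ 2 := by
          have := sum_norm_R3_sq_le hψ
          linarith

/-- The mixed sum `∑ χ((1+u)/u) e(u)`. -/
theorem norm_conf_le {χ : MulChar F ℂ} (hχ : χ ≠ 1) (e : AddChar F ℂ) :
    ‖∑ u : F, e u * (χ (1 + u) * χ⁻¹ u)‖ ^ 4 ≤ 15 * (Fintype.card F : ℝ) ^ 3 := by
  classical
  set q : ℝ := (Fintype.card F : ℝ) with hq
  have hq1 : 1 ≤ q := card_ge_one F
  set G : F → ℂ := fun u => χ (1 + u) * χ⁻¹ u with hG
  have hv := vdc (A := F) (fun u => e u) (fun x y => AddChar.map_add_eq_mul e x y)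
    (fun x => AddChar.norm_apply e x) G
  refine hv.trans ?_
  set α : F → F := fun h => 1 + h with hα
  set β : F → F := fun h => -h with hβ
  set γ : F → F := fun h => h with hγ
  set δ : F → F := fun h => 1 - h with hδ
  have hT : ∀ c : F, ‖∑ u : F, G (u + c) * conj (G u)‖ ≤
      ‖∑ v : F, χ (α c * v + β c) * χ⁻¹ (γ c * v + δ c) * χ⁻¹ v‖ + 2 := by
    intro c
    set h : F → ℂ := fun u => χ (1 + (u + c)) * χ⁻¹ (u + c) * (χ⁻¹ (1 + u) * χ u) with hh
    set h' : F → ℂ := fun v => χ (α c * v + β c) * χ⁻¹ (γ c * v + δ c) * χ⁻¹ v with hh'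
    have e1 : ∑ u : F, G (u + c) * conj (G u) = ∑ u : F, h u := by
      refine sum_congr rfl fun u _ => ?_
      rw [hG, hh]
      simp only [map_mul, conj_mulChar, inv_inv]
    have e2 : ∑ u : F, h u = ∑ u ∈ univ.erase 0, h u := by
      rw [← Finset.add_sum_erase _ _ (mem_univ (0 : F))]
      have : h 0 = 0 := by
        simp only [hh, MulChar.map_zero, mul_zero]
      rw [this, zero_add]
    have e3 : ∑ u ∈ univ.erase (0 : F), h u = ∑ v ∈ univ.erase (1 : F), h' v := by
      refine Finset.sum_bij' (fun u _ => (u + 1) / u) (fun v _ => 1 / (v - 1))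
        ?_ ?_ ?_ ?_ ?_
      · intro u hu
        have hu' : u ≠ 0 := (mem_erase.1 hu).1
        refine mem_erase.2 ⟨?_, mem_univ _⟩
        intro h3
        rw [div_eq_iff hu'] at h3
        have : (1 : F) = 0 := by linear_combination h3
        exact one_ne_zero this
      · intro v hv
        have hv' : v - 1 ≠ 0 := sub_ne_zero.2 (mem_erase.1 hv).1
        exact mem_erase.2 ⟨one_div_ne_zero hv', mem_univ _⟩
      · intro u hu
        have hu' : u ≠ 0 := (mem_erase.1 hu).1
        rw [show (u + 1) / u - 1 = 1 / u by field_simp; ring]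
        rw [one_div_one_div]
      · intro v hv
        have hv' : v - 1 ≠ 0 := sub_ne_zero.2 (mem_erase.1 hv).1
        field_simp
        ring
      · intro u hu
        have hu' : u ≠ 0 := (mem_erase.1 hu).1
        rw [hh, hh']
        simp only
        have f1 : α c * ((u + 1) / u) + β c = (1 + (u + c)) / u := by
          rw [hα, hβ]; field_simp; ring
        have f2 : γ c * ((u + 1) / u) + δ c = (u + c) / u := by
          rw [hγ, hδ]; field_simp; ring
        rw [f1, f2, div_eq_mul_inv, div_eq_mul_inv, div_eq_mul_inv, map_mul, map_mul, map_mul]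
        have g1 := mulChar_mul_inv (χ := χ) (inv_ne_zero hu')
        have g2 : χ⁻¹ u⁻¹ = χ u := by
          rw [MulChar.inv_apply', inv_inv]
        rw [g2] at g1 ⊢
        rw [add_comm u 1]
        linear_combination (-(χ (1 + (u + c)) * χ⁻¹ (u + c) * χ⁻¹ (1 + u) * χ u)) * g1
    have e4 : ∑ v ∈ univ.erase (1 : F), h' v = ∑ v : F, h' v - h' 1 := by
      rw [← Finset.add_sum_erase _ _ (mem_univ (1 : F)), add_sub_cancel_left]
    rw [e1, e2, e3, e4]
    have n2 : ‖h' 1‖ ≤ 1 := norm_mul_le_one (norm_mul_le_one (norm_mulChar_le _ _)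
      (norm_mulChar_le _ _)) (norm_mulChar_le _ _)
    have := norm_sub_le (∑ v : F, h' v) (h' 1)
    linarith
  have hTq : ∀ c : F, ‖∑ w : F, G (w + c) * conj (G w)‖ ≤ q := by
    intro c
    refine (norm_sum_le_card _ _ fun w _ => ?_).trans (by rw [card_univ])
    refine norm_mul_le_one ?_ ?_
    · exact norm_mul_le_one (norm_mulChar_le _ _) (norm_mulChar_le _ _)
    · rw [RCLike.norm_conj]
      exact norm_mul_le_one (norm_mulChar_le _ _) (norm_mulChar_le _ _)
  set E : Finset F := {0, 1, -1} with hE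
  have hEcard : (E.card : ℝ) ≤ 3 := by exact_mod_cast Finset.card_le_three
  have hmain := sum_sq_le_of_except (univ : Finset F) E
    (fun c => ‖∑ w : F, G (w + c) * conj (G w)‖)
    (fun c => ‖∑ v : F, χ (α c * v + β c) * χ⁻¹ (γ c * v + δ c) * χ⁻¹ v‖) q hq1
    (by rw [card_univ]) hEcard (fun _ => norm_nonneg _) (fun c _ => hTq c)
    (fun c _ => hT c) (fun _ => norm_nonneg _) ?_
  · calc (Fintype.card F : ℝ) * ∑ c : F, ‖∑ w : F, G (w + c) * conj (G w)‖ ^ 2
        ≤ q * (15 * q ^ 2) := mul_le_mul_of_nonneg_left hmain (by linarith)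
      _ = 15 * q ^ 3 := by ring
  · have hαβγδ : ∀ c ∈ univ \ E, α c ≠ 0 ∧ β c ≠ 0 ∧ γ c ≠ 0 := by
      intro c hc
      have hc' := (mem_sdiff.1 hc).2
      rw [hE] at hc'
      simp only [mem_insert, mem_singleton, not_or] at hc'
      refine ⟨fun h => hc'.2.2 ?_, neg_ne_zero.2 hc'.1, hc'.1⟩
      exact eq_neg_of_add_eq_zero_right h
    calc ∑ c ∈ univ \ E, ‖∑ v : F, χ (α c * v + β c) * χ⁻¹ (γ c * v + δ c) * χ⁻¹ v‖ ^ 2
        = ∑ c ∈ univ \ E, (fun μ => ‖R3 χ μ‖ ^ 2) (α c * δ c / (β c * γ c)) := by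
          refine sum_congr rfl fun c hc => ?_
          obtain ⟨h1, h3, h4⟩ := hαβγδ c hc
          rw [norm_sum_eq_R3 χ h1 h3 h4]
      _ ≤ 2 * ∑ μ : F, ‖R3 χ μ‖ ^ 2 := by
          refine sum_two_to_one (univ \ E) (fun c => α c * δ c / (β c * γ c))
            (fun μ => ‖R3 χ μ‖ ^ 2) (fun μ => by positivity) fun μ => ?_
          rcases ((univ \ E).filter (fun c => α c * δ c / (β c * γ c) = μ)).eq_empty_or_nonempty
            with h5 | ⟨c₀, hc₀⟩
          · rw [h5]; simp
          · refine le_trans (card_le_card (t := {c₀, -c₀}) fun c hc => ?_) Finset.card_le_two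
            obtain ⟨hc1, hc2⟩ := mem_filter.1 hc
            obtain ⟨hc3, hc4⟩ := mem_filter.1 hc₀
            obtain ⟨-, k1, k2⟩ := hαβγδ c hc1
            obtain ⟨-, k3, k4⟩ := hαβγδ c₀ hc3
            have h6 : α c * δ c / (β c * γ c) = α c₀ * δ c₀ / (β c₀ * γ c₀) := by
              rw [hc2, hc4]
            rw [div_eq_div_iff (mul_ne_zero k1 k2) (mul_ne_zero k3 k4)] at h6
            have h7 : (c - c₀) * (c + c₀) = 0 := by
              simp only [hα, hβ, hγ, hδ] at h6
              linear_combination h6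
            rcases mul_eq_zero.1 h7 with h9 | h9
            · rw [mem_insert]; left
              exact sub_eq_zero.1 h9
            · rw [mem_insert, mem_singleton]; right
              exact eq_neg_of_add_eq_zero_left h9
      _ ≤ 2 * q ^ 2 := by
          have := sum_norm_R3_sq_le hχ
          linarith

/-- Second moment of a family of additive character sums. -/
theorem sum_norm_sq_addChar [DecidableEq F] (e : AddChar F ℂ) (he : e.IsPrimitive) (W : Finset F)
    (k : F → F) (hk : ∀ w ∈ W, (W.filter (fun w' => k w = k w')).card ≤ 2) :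
    ∑ t : F, ‖∑ w ∈ W, e (t * k w)‖ ^ 2 ≤ 2 * (Fintype.card F : ℝ) ^ 2 := by
  have h1 : ((∑ t : F, ‖∑ w ∈ W, e (t * k w)‖ ^ 2 : ℝ) : ℂ) =
      ((Fintype.card F * ∑ w ∈ W, ((W.filter (fun w' => k w = k w')).card : ℝ) : ℝ) : ℂ) := by
    push_cast
    simp_rw [← Complex.mul_conj', map_sum, sum_mul_sum]
    rw [sum_comm, mul_sum]
    refine sum_congr rfl fun w _ => ?_
    rw [sum_comm]
    have h2 : ∀ w' ∈ W, ∑ t : F, e (t * k w) * conj (e (t * k w')) =
        if k w = k w' then (Fintype.card F : ℂ) else 0 := by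
      intro w' _
      have h3 : ∀ t : F, e (t * k w) * conj (e (t * k w')) = e (t * (k w - k w')) := by
        intro t
        rw [← AddChar.map_neg_eq_conj, ← AddChar.map_add_eq_mul]
        congr 1
        ring
      rw [sum_congr rfl fun t _ => h3 t, AddChar.sum_mulShift _ he]
      by_cases h : k w = k w'
      · rw [if_pos h, if_pos (sub_eq_zero.2 h)]
      · rw [if_neg h, if_neg (sub_ne_zero.2 h)]
        simp
    rw [sum_congr rfl h2, ← Finset.sum_filter, sum_const, nsmul_eq_mul]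
    ring
  have h3 : ∑ t : F, ‖∑ w ∈ W, e (t * k w)‖ ^ 2 =
      Fintype.card F * ∑ w ∈ W, ((W.filter (fun w' => k w = k w')).card : ℝ) := by
    exact_mod_cast h1
  rw [h3]
  have h4 : ∑ w ∈ W, ((W.filter (fun w' => k w = k w')).card : ℝ) ≤ 2 * Fintype.card F := by
    calc ∑ w ∈ W, ((W.filter (fun w' => k w = k w')).card : ℝ) ≤ ∑ w ∈ W, (2 : ℝ) :=
          sum_le_sum fun w hw => by exact_mod_cast hk w hw
      _ = 2 * W.card := by rw [sum_const, nsmul_eq_mul, mul_comm]
      _ ≤ 2 * Fintype.card F := by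
          have : (W.card : ℝ) ≤ Fintype.card F := by exact_mod_cast card_le_univ W
          linarith
  have := mul_le_mul_of_nonneg_left h4 (Nat.cast_nonneg (α := ℝ) (Fintype.card F))
  linarith

/-- Kloosterman sums, elementary bound. -/
theorem norm_kloosterman_le [DecidableEq F] (e : AddChar F ℂ) (he : e.IsPrimitive) (a : F) {b : F}
    (hb : b ≠ 0) :
    ‖∑ u : F, e (a * u) * (if u = 0 then 0 else e (b / u))‖ ^ 4 ≤
      15 * (Fintype.card F : ℝ) ^ 3 := by
  set q : ℝ := (Fintype.card F : ℝ) with hq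
  have hq1 : 1 ≤ q := card_ge_one F
  set G : F → ℂ := fun u => if u = 0 then 0 else e (b / u) with hG
  have hv := vdc (A := F) (fun u => e (a * u))
    (fun x y => by rw [mul_add, AddChar.map_add_eq_mul])
    (fun x => AddChar.norm_apply e _) G
  refine hv.trans ?_
  set W : Finset F := (univ.erase 0).erase (-1) with hW
  set k : F → F := fun w => (w * (w + 1))⁻¹ with hk
  have hGn : ∀ u, ‖G u‖ ≤ 1 := by
    intro u
    rw [hG]
    simp only
    split_ifs
    · rw [norm_zero]; exact zero_le_one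
    · exact (AddChar.norm_apply e _).le
  have hT : ∀ h : F, h ≠ 0 → ∑ u : F, G (u + h) * conj (G u) =
      ∑ w ∈ W, e ((-b / h) * k w) := by
    intro h hh
    have e0 : ∑ u : F, G (u + h) * conj (G u) = ∑ w : F, G (h * w + h) * conj (G (h * w)) :=
      (Equiv.sum_comp (Equiv.mulLeft₀ h hh) (fun u => G (u + h) * conj (G u))).symm
    rw [e0]
    have e1 : ∑ w : F, G (h * w + h) * conj (G (h * w)) =
        ∑ w ∈ W, G (h * w + h) * conj (G (h * w)) := by
      symm
      refine Finset.sum_subset (subset_univ _) fun w _ hw => ?_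
      have hw' : w = -1 ∨ w = 0 := by
        by_contra hcon
        push Not at hcon
        exact hw (mem_erase.2 ⟨hcon.1, mem_erase.2 ⟨hcon.2, mem_univ _⟩⟩)
      rcases hw' with rfl | rfl
      · rw [hG]; simp
      · rw [hG]; simp
    rw [e1]
    refine sum_congr rfl fun w hw => ?_
    have hw1 : w ≠ -1 := (mem_erase.1 hw).1
    have hw0 : w ≠ 0 := (mem_erase.1 (mem_erase.1 hw).2).1
    have hw1' : w + 1 ≠ 0 := by
      intro h3
      exact hw1 (eq_neg_of_add_eq_zero_left h3)
    have g1 : h * w + h ≠ 0 := by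
      rw [show h * w + h = h * (w + 1) by ring]
      exact mul_ne_zero hh hw1'
    have g2 : h * w ≠ 0 := mul_ne_zero hh hw0
    rw [hG]
    simp only [if_neg g1, if_neg g2]
    rw [← AddChar.map_neg_eq_conj, ← AddChar.map_add_eq_mul]
    congr 1
    rw [hk]
    simp only
    field_simp
    ring
  set E : Finset F := {0} with hE
  have hmain := sum_sq_le_of_except (univ : Finset F) E
    (fun c => ‖∑ w : F, G (w + c) * conj (G w)‖)
    (fun h => ‖∑ w ∈ W, e ((-b / h) * k w)‖) q hq1
    (by rw [card_univ]) (by rw [hE]; simp) (fun _ => norm_nonneg _) (fun c _ => ?_)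
    (fun c hc => ?_) (fun _ => norm_nonneg _) ?_
  · calc (Fintype.card F : ℝ) * ∑ c : F, ‖∑ w : F, G (w + c) * conj (G w)‖ ^ 2
        ≤ q * (15 * q ^ 2) := mul_le_mul_of_nonneg_left hmain (by linarith)
      _ = 15 * q ^ 3 := by ring
  · refine (norm_sum_le_card _ _ fun w _ => ?_).trans (by rw [card_univ])
    refine norm_mul_le_one (hGn _) ?_
    rw [RCLike.norm_conj]
    exact hGn _
  · have hc' : c ≠ 0 := by
      have := (mem_sdiff.1 hc).2
      rwa [hE, mem_singleton] at this
    rw [hT c hc']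
    linarith
  · have hinj : Set.InjOn (fun h : F => -b / h) ((univ \ E : Finset F) : Set F) := by
      intro x hx y hy hxy
      have hx' : x ≠ 0 := by
        have := (mem_sdiff.1 (mem_coe.1 hx)).2
        rwa [hE, mem_singleton] at this
      have hy' : y ≠ 0 := by
        have := (mem_sdiff.1 (mem_coe.1 hy)).2
        rwa [hE, mem_singleton] at this
      simp only at hxy
      rw [div_eq_div_iff hx' hy'] at hxy
      have := mul_left_cancel₀ (neg_ne_zero.2 hb) hxy
      exact this.symm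
    have h5 : ∑ h ∈ univ \ E, ‖∑ w ∈ W, e ((-b / h) * k w)‖ ^ 2 =
        ∑ t ∈ (univ \ E).image (fun h : F => -b / h), ‖∑ w ∈ W, e (t * k w)‖ ^ 2 := by
      rw [Finset.sum_image hinj]
    rw [h5]
    refine le_trans (sum_le_sum_of_subset_of_nonneg (subset_univ _) fun _ _ _ => by positivity) ?_
    refine sum_norm_sq_addChar e he W k fun w hw => ?_
    refine le_trans (card_le_card (t := {w, -1 - w}) fun w' hw' => ?_) Finset.card_le_two
    obtain ⟨hw1, hw2⟩ := mem_filter.1 hw'
    rw [hk] at hw2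
    simp only [inv_inj] at hw2
    have h7 : (w' - w) * (w' + w + 1) = 0 := by linear_combination -hw2
    rcases mul_eq_zero.1 h7 with h8 | h8
    · rw [mem_insert]; left
      exact sub_eq_zero.1 h8
    · rw [mem_insert, mem_singleton]; right
      linear_combination h8

end Pool.Agent.Work.MP_9bdca2_co
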