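import Mathlib

/-!
# The sawtooth function on `ZMod N` and its finite Fourier expansion
-/

set_option autoImplicit false

namespace Pool.Agent.Work.MP_9bdca2_co

open Finset

/-- Sum over `ZMod N` of a function of `val`. -/
theorem sum_val {N : ℕ} [NeZero N] {E : Type*} [AddCommMonoid E] (f : ℕ → E) :
    ∑ x : ZMod N, f x.val = ∑ k ∈ range N, f k := by
  refine Finset.sum_bij (fun x _ => x.val) ?_ ?_ ?_ ?_
  · intro x _
    exact mem_range.2 (ZMod.val_lt x)
  · intro x _ y _ h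
    exact ZMod.val_injective N h
  · intro k hk
    exact ⟨(k : ZMod N), mem_univ _, ZMod.val_cast_of_lt (mem_range.1 hk)⟩
  · intro x _
    rfl

/-- The normalised sawtooth function: representative in `[0, N)` divided by `N`, minus the mean. -/
noncomputable def saw (N : ℕ) (x : ZMod N) : ℝ := (x.val : ℝ) / N - ((N : ℝ) - 1) / (2 * N)

theorem sum_saw (N : ℕ) [NeZero N] : ∑ x : ZMod N, saw N x = 0 := by
  have hN : (N : ℝ) ≠ 0 := Nat.cast_ne_zero.2 (NeZero.ne N)
  have h := sum_val (N := N) (fun k => (k : ℝ) / N - ((N : ℝ) - 1) / (2 * N))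
  have h1 : ∀ n : ℕ, ∑ k ∈ range n, (k : ℝ) = (n : ℝ) * (n - 1) / 2 := by
    intro n
    induction n with
    | zero => simp
    | succ n ih => rw [sum_range_succ, ih]; push_cast; ring
  unfold saw
  rw [h, sum_sub_distrib, ← sum_div, h1, sum_const, card_range, nsmul_eq_mul]
  field_simp
  ring

theorem sum_saw_sq (N : ℕ) [NeZero N] : ∑ x : ZMod N, saw N x ^ 2 ≤ (N : ℝ) / 12 := by
  have hN : (N : ℝ) ≠ 0 := Nat.cast_ne_zero.2 (NeZero.ne N)
  have hN0 : (0 : ℝ) < N := by positivity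
  have h := sum_val (N := N) (fun k => ((k : ℝ) / N - ((N : ℝ) - 1) / (2 * N)) ^ 2)
  have h1 : ∀ n : ℕ, ∑ k ∈ range n, ((k : ℝ) / N - ((N : ℝ) - 1) / (2 * N)) ^ 2 =
      ((n : ℝ) * (n - 1) * (2 * n - 1) / 6) / N ^ 2 - (n : ℝ) * (n - 1) / 2 * ((N - 1) / N ^ 2)
        + n * ((N - 1) / (2 * N)) ^ 2 := by
    intro n
    induction n with
    | zero => simp
    | succ n ih => rw [sum_range_succ, ih]; push_cast; field_simp; ring
  unfold saw
  rw [h, h1]
  have h2 : ((N : ℝ) * (N - 1) * (2 * N - 1) / 6) / N ^ 2 - (N : ℝ) * (N - 1) / 2 * ((N - 1) / N ^ 2)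
        + N * ((N - 1) / (2 * N)) ^ 2 = N / 12 - 1 / (12 * N) := by
    field_simp
    ring
  rw [h2]
  have : 0 ≤ 1 / (12 * (N : ℝ)) := by positivity
  linarith

theorem abs_saw_le (N : ℕ) [NeZero N] (x : ZMod N) : |saw N x| ≤ 1 / 2 := by
  have hN : (0 : ℝ) < N := Nat.cast_pos.2 (NeZero.pos N)
  have h1 : (x.val : ℝ) + 1 ≤ N := by exact_mod_cast (ZMod.val_lt x)
  have h0 : (0 : ℝ) ≤ x.val := Nat.cast_nonneg _
  have : saw N x = (2 * x.val - (N - 1)) / (2 * N) := by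
    unfold saw; field_simp
  rw [this, abs_le]
  constructor
  · rw [le_div_iff₀ (by positivity)]; linarith
  · rw [div_le_iff₀ (by positivity)]; linarith

theorem saw_add_one (N : ℕ) [NeZero N] (x : ZMod N) :
    saw N (x + 1) = saw N x + 1 / N - (if x = -1 then 1 else 0) := by
  have hN : (N : ℝ) ≠ 0 := Nat.cast_ne_zero.2 (NeZero.ne N)
  unfold saw
  by_cases h : x = -1
  · subst h
    rw [if_pos rfl, neg_add_cancel, ZMod.val_zero]
    obtain ⟨n, hn⟩ := Nat.exists_eq_succ_of_ne_zero (NeZero.ne N)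
    subst hn
    rw [ZMod.val_neg_one]
    push_cast
    push_cast at hN
    field_simp
    ring
  · rw [if_neg h]
    have hval : (x + 1).val = x.val + 1 := by
      have hlt : x.val + 1 < N := by
        rcases lt_or_eq_of_le (Nat.succ_le_of_lt (ZMod.val_lt x)) with h1 | h1
        · exact h1
        · exfalso
          apply h
          have h2 : ((x.val + 1 : ℕ) : ZMod N) = 0 := by
            rw [show x.val + 1 = N from h1]
            exact ZMod.natCast_self N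
          rw [Nat.cast_add, Nat.cast_one, ZMod.natCast_zmod_val] at h2
          exact eq_neg_of_add_eq_zero_left h2
      rcases Nat.lt_or_ge 1 N with h1 | h1
      · have : Fact (1 < N) := ⟨h1⟩
        rw [ZMod.val_add_of_lt, ZMod.val_one]
        rw [ZMod.val_one]
        exact hlt
      · omega
    rw [hval]
    push_cast
    field_simp
    ring

/-- Fourier coefficients of the sawtooth. -/
noncomputable def sc (N : ℕ) [NeZero N] (m : ZMod N) : ℂ :=
  (N : ℂ)⁻¹ * ZMod.dft (fun x : ZMod N => ((saw N x : ℝ) : ℂ)) m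

theorem saw_expansion (N : ℕ) [NeZero N] (x : ZMod N) :
    ((saw N x : ℝ) : ℂ) = ∑ m : ZMod N, sc N m * ZMod.stdAddChar (m * x) := by
  have h := ZMod.invDFT_apply (ZMod.dft (fun x : ZMod N => ((saw N x : ℝ) : ℂ))) x
  rw [LinearEquiv.symm_apply_apply] at h
  rw [h, smul_eq_mul, mul_sum]
  refine sum_congr rfl fun m _ => ?_
  unfold sc
  rw [smul_eq_mul]
  ring

theorem sc_zero (N : ℕ) [NeZero N] : sc N 0 = 0 := by
  unfold sc
  rw [ZMod.dft_apply_zero, ← Complex.ofReal_sum, sum_saw]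
  simp

theorem sum_stdAddChar_mul (N : ℕ) [NeZero N] (m : ZMod N) (hm : m ≠ 0) :
    ∑ x : ZMod N, ZMod.stdAddChar (m * x) = 0 := by
  have h := AddChar.sum_mulShift (R := ZMod N) (R' := ℂ) m (ZMod.isPrimitive_stdAddChar N)
  rw [if_neg hm] at h
  simpa [mul_comm] using h

theorem dft_saw (N : ℕ) [NeZero N] (m : ZMod N) (hm : m ≠ 0) :
    (ZMod.stdAddChar m - 1) * ZMod.dft (fun x : ZMod N => ((saw N x : ℝ) : ℂ)) m =
      - ZMod.stdAddChar m := by
  have hdef : ZMod.dft (fun x : ZMod N => ((saw N x : ℝ) : ℂ)) m =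
      ∑ x : ZMod N, ZMod.stdAddChar (-(x * m)) * ((saw N x : ℝ) : ℂ) := by
    rw [ZMod.dft_apply]; rfl
  have h1 : ∑ x : ZMod N, ZMod.stdAddChar (-(x * m)) * ((saw N (x + 1) : ℝ) : ℂ) =
      ZMod.stdAddChar m * ∑ x : ZMod N, ZMod.stdAddChar (-(x * m)) * ((saw N x : ℝ) : ℂ) := by
    rw [mul_sum]
    rw [← (Equiv.subRight (1 : ZMod N)).sum_comp]
    refine sum_congr rfl fun x _ => ?_
    rw [Equiv.subRight_apply, sub_add_cancel, ← mul_assoc, ← AddChar.map_add_eq_mul]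
    congr 2
    ring_nf
  have h2 : ∑ x : ZMod N, ZMod.stdAddChar (-(x * m)) * ((saw N (x + 1) : ℝ) : ℂ) =
      ∑ x : ZMod N, ZMod.stdAddChar (-(x * m)) * ((saw N x : ℝ) : ℂ) - ZMod.stdAddChar m := by
    have h3 : ∀ x : ZMod N, ZMod.stdAddChar (-(x * m)) * ((saw N (x + 1) : ℝ) : ℂ) =
        ZMod.stdAddChar (-(x * m)) * ((saw N x : ℝ) : ℂ) +
          (N : ℂ)⁻¹ * ZMod.stdAddChar ((-m) * x) -
          (if x = -1 then ZMod.stdAddChar (-(x * m)) else 0) := by
      intro x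
      rw [saw_add_one]
      have : -(x * m) = (-m) * x := by ring
      rw [this]
      split_ifs with h
      · push_cast; ring
      · push_cast; ring
    rw [sum_congr rfl fun x _ => h3 x, sum_sub_distrib, sum_add_distrib, ← mul_sum,
      sum_stdAddChar_mul N (-m) (neg_ne_zero.2 hm)]
    simp
  rw [hdef]
  have h4 := h1.symm.trans h2
  linear_combination h4

theorem norm_stdAddChar_sub_one (N : ℕ) [NeZero N] (m : ZMod N) :
    ‖ZMod.stdAddChar m - 1‖ = 2 * |Real.sin (Real.pi * m.val / N)| := by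
  have h1 : (ZMod.stdAddChar m : ℂ) = Complex.exp (Complex.I * ((2 * Real.pi * m.val / N : ℝ) : ℂ)) := by
    have h := ZMod.stdAddChar_coe (N := N) (m.val : ℤ)
    rw [Int.cast_natCast, ZMod.natCast_zmod_val] at h
    rw [h]
    congr 1
    push_cast
    ring
  rw [h1, Complex.norm_exp_I_mul_ofReal_sub_one, Real.norm_eq_abs, abs_mul, abs_two]
  congr 3
  ring

theorem norm_stdAddChar_sub_one_ge (N : ℕ) [NeZero N] (m : ZMod N) (hm : m ≠ 0) :
    4 * ((m.val : ℝ)⁻¹ + ((N : ℝ) - m.val)⁻¹)⁻¹ ≤ N * ‖ZMod.stdAddChar m - 1‖ := by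
  have hN : (0 : ℝ) < N := Nat.cast_pos.2 (NeZero.pos N)
  have hv0 : (0 : ℝ) < m.val := by
    have : m.val ≠ 0 := by rwa [Ne, ZMod.val_eq_zero]
    exact Nat.cast_pos.2 (Nat.pos_of_ne_zero this)
  have hvN : (m.val : ℝ) < N := by exact_mod_cast (ZMod.val_lt m)
  set v : ℝ := (m.val : ℝ) with hv
  rw [norm_stdAddChar_sub_one]
  have hpi := Real.pi_pos
  have key : ∀ t : ℝ, 0 < t → t ≤ N / 2 → 2 * t / N ≤ |Real.sin (Real.pi * t / N)| := by
    intro t ht ht2
    have habs : |Real.pi * t / N| ≤ Real.pi / 2 := by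
      rw [abs_of_pos (by positivity), div_le_iff₀ hN]
      nlinarith
    have := Real.mul_abs_le_abs_sin habs
    rw [abs_of_pos (by positivity : 0 < Real.pi * t / N)] at this
    refine le_trans (le_of_eq ?_) this
    field_simp
  have hinv1 : (v⁻¹ + ((N : ℝ) - v)⁻¹)⁻¹ ≤ v := by
    rw [inv_le_comm₀ (by have := sub_pos.2 hvN; positivity) hv0]
    have := inv_pos.2 (sub_pos.2 hvN)
    linarith
  have hinv2 : (v⁻¹ + ((N : ℝ) - v)⁻¹)⁻¹ ≤ N - v := by
    rw [inv_le_comm₀ (by have := sub_pos.2 hvN; positivity) (sub_pos.2 hvN)]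
    have := inv_pos.2 hv0
    linarith
  rcases le_total v (N / 2) with h | h
  · have h1 := key v hv0 h
    calc 4 * (v⁻¹ + ((N : ℝ) - v)⁻¹)⁻¹ ≤ 4 * v := by linarith
      _ = N * (2 * (2 * v / N)) := by field_simp; ring
      _ ≤ N * (2 * |Real.sin (Real.pi * v / N)|) := by
          apply mul_le_mul_of_nonneg_left _ hN.le
          linarith
  · have h1 := key (N - v) (sub_pos.2 hvN) (by linarith)
    have h2 : Real.sin (Real.pi * (N - v) / N) = Real.sin (Real.pi * v / N) := by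
      have : Real.pi * (N - v) / N = Real.pi - Real.pi * v / N := by field_simp
      rw [this, Real.sin_pi_sub]
    rw [h2] at h1
    calc 4 * (v⁻¹ + ((N : ℝ) - v)⁻¹)⁻¹ ≤ 4 * (N - v) := by linarith
      _ = N * (2 * (2 * (N - v) / N)) := by field_simp; ring
      _ ≤ N * (2 * |Real.sin (Real.pi * v / N)|) := by
          apply mul_le_mul_of_nonneg_left _ hN.le
          linarith

theorem norm_sc_le (N : ℕ) [NeZero N] (m : ZMod N) (hm : m ≠ 0) :
    ‖sc N m‖ ≤ ((m.val : ℝ)⁻¹ + ((N : ℝ) - m.val)⁻¹) / 4 := by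
  have hN : (0 : ℝ) < N := Nat.cast_pos.2 (NeZero.pos N)
  have hv0 : (0 : ℝ) < m.val := by
    have : m.val ≠ 0 := by rwa [Ne, ZMod.val_eq_zero]
    exact Nat.cast_pos.2 (Nat.pos_of_ne_zero this)
  have hvN : (m.val : ℝ) < N := by exact_mod_cast (ZMod.val_lt m)
  have hpos : 0 < (m.val : ℝ)⁻¹ + ((N : ℝ) - m.val)⁻¹ := by
    have := sub_pos.2 hvN
    positivity
  have h1 := norm_stdAddChar_sub_one_ge N m hm
  have h2 := congrArg norm (dft_saw N m hm)
  rw [norm_mul, norm_neg, ZMod.stdAddChar_apply, Circle.norm_coe] at h2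
  rw [ZMod.stdAddChar_apply] at h1
  unfold sc
  rw [norm_mul, norm_inv, Complex.norm_natCast]
  set D := ‖(ZMod.dft (fun x : ZMod N => ((saw N x : ℝ) : ℂ)) m)‖ with hD
  set A := ‖((ZMod.toCircle m : Circle) : ℂ) - 1‖ with hA
  set w := (m.val : ℝ)⁻¹ + ((N : ℝ) - m.val)⁻¹ with hw
  have hDnn : 0 ≤ D := norm_nonneg _
  have h3 : 4 * w⁻¹ * D ≤ N := by
    calc 4 * w⁻¹ * D ≤ (N * A) * D := mul_le_mul_of_nonneg_right h1 hDnn
      _ = N * (A * D) := by ring
      _ = N := by rw [h2, mul_one]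
  rw [inv_mul_le_iff₀ hN]
  have h4 : w * w⁻¹ = 1 := mul_inv_cancel₀ hpos.ne'
  have h5 : D = w * w⁻¹ * D := by rw [h4, one_mul]
  nlinarith [mul_le_mul_of_nonneg_left h3 hpos.le]

/-- The Wiener norm of the sawtooth. -/
noncomputable def Lsaw (N : ℕ) [NeZero N] : ℝ := ∑ m : ZMod N, ‖sc N m‖

theorem Lsaw_nonneg (N : ℕ) [NeZero N] : 0 ≤ Lsaw N := sum_nonneg fun _ _ => norm_nonneg _

theorem Lsaw_le (N : ℕ) [NeZero N] : Lsaw N ≤ (1 + Real.log N) / 2 := by
  unfold Lsaw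
  have h1 : ∀ m : ZMod N, ‖sc N m‖ ≤
      (fun k : ℕ => if k = 0 then (0 : ℝ) else ((k : ℝ)⁻¹ + ((N : ℝ) - k)⁻¹) / 4) m.val := by
    intro m
    by_cases hm : m = 0
    · subst hm
      simp [sc_zero]
    · have : m.val ≠ 0 := by rwa [Ne, ZMod.val_eq_zero]
      simp only [this, if_false]
      exact norm_sc_le N m hm
  refine le_trans (sum_le_sum fun m _ => h1 m) ?_
  rw [sum_val (N := N) (fun k : ℕ => if k = 0 then (0 : ℝ) else ((k : ℝ)⁻¹ + ((N : ℝ) - k)⁻¹) / 4)]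
  obtain ⟨n, hn⟩ := Nat.exists_eq_succ_of_ne_zero (NeZero.ne N)
  rw [hn, sum_range_succ']
  simp only [Nat.add_eq_zero_iff, one_ne_zero, and_false, if_false, if_true, add_zero]
  have h2 : ∑ k ∈ range n, (((k + 1 : ℕ) : ℝ)⁻¹ + (((n.succ : ℕ) : ℝ) - ((k + 1 : ℕ) : ℝ))⁻¹) / 4 =
      (∑ k ∈ range n, ((k + 1 : ℕ) : ℝ)⁻¹) / 2 := by
    rw [← sum_div, sum_add_distrib]
    have h3 : ∑ k ∈ range n, (((n.succ : ℕ) : ℝ) - ((k + 1 : ℕ) : ℝ))⁻¹ =
        ∑ k ∈ range n, ((k + 1 : ℕ) : ℝ)⁻¹ := by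
      rw [← Finset.sum_range_reflect]
      refine sum_congr rfl fun k hk => ?_
      have hk' := mem_range.1 hk
      congr 1
      have : n - 1 - k + 1 = n - k := by omega
      rw [this, Nat.cast_sub hk'.le]
      push_cast
      ring
    rw [h3]
    ring
  rw [h2]
  have h4 : (∑ k ∈ range n, ((k + 1 : ℕ) : ℝ)⁻¹) = ((harmonic n : ℚ) : ℝ) := by
    unfold harmonic
    push_cast
    rfl
  rw [h4]
  have h5 := harmonic_le_one_add_log n
  have h6 : Real.log n ≤ Real.log (n.succ : ℕ) := by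
    rcases Nat.eq_zero_or_pos n with h | h
    · subst h; simp
    · apply Real.log_le_log (by exact_mod_cast h)
      push_cast
      linarith
  linarith

end Pool.Agent.Work.MP_9bdca2_co
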