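import Mathlib
import Pool.Agent.Work.MP_9bdca2_co.Saw

/-!
# Growth estimates and carries
-/

set_option autoImplicit false

namespace Pool.Agent.Work.MP_9bdca2_co

open Finset

/-- From a bound on the fourth power to a bound with exponent `3/4`. -/
theorem le_of_pow_four {x q : ℝ} (hq : 0 ≤ q) (h : x ^ 4 ≤ 15 * q ^ 3) :
    x ≤ 2 * q ^ (3 / 4 : ℝ) := by
  have h1 : (q ^ (3 / 4 : ℝ)) ^ 4 = q ^ 3 := by
    rw [← Real.rpow_natCast, ← Real.rpow_mul hq]
    norm_num
  have h2 : 0 ≤ q ^ (3 / 4 : ℝ) := Real.rpow_nonneg hq _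
  have h3 : x ^ 4 ≤ (2 * q ^ (3 / 4 : ℝ)) ^ 4 := by
    rw [mul_pow, h1]
    have : 0 ≤ q ^ 3 := by positivity
    linarith
  exact le_of_pow_le_pow_left₀ (by norm_num) (by positivity) h3

theorem sqrt_le_rpow {q : ℝ} (hq : 1 ≤ q) : √q ≤ 2 * q ^ (3 / 4 : ℝ) := by
  rw [Real.sqrt_eq_rpow]
  have h1 : q ^ (1 / 2 : ℝ) ≤ q ^ (3 / 4 : ℝ) := Real.rpow_le_rpow_of_exponent_le hq (by norm_num)
  have h2 : 0 ≤ q ^ (3 / 4 : ℝ) := Real.rpow_nonneg (by linarith) _
  linarith

/-- The error terms are eventually small. -/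
theorem growth : ∃ Q : ℕ, ∀ q : ℕ, Q ≤ q →
    (1 + Real.log q) * (1 + Real.log q) * (2 * (q : ℝ) ^ (3 / 4 : ℝ) + 3) ≤ ((q : ℝ) - 3) / 4000 := by
  refine ⟨11560000 ^ 8, fun q hq => ?_⟩
  have hq' : ((11560000 : ℝ)) ^ 8 ≤ q := by exact_mod_cast hq
  have hq1 : (1 : ℝ) ≤ q := le_trans (by norm_num) hq'
  have hq0 : (0 : ℝ) ≤ q := by linarith
  -- the basic quantity `s = q ^ (1/16)`
  set s : ℝ := (q : ℝ) ^ (1 / 16 : ℝ) with hs
  have hs0 : 0 ≤ s := Real.rpow_nonneg hq0 _
  have hs1 : 1 ≤ s := Real.one_le_rpow hq1 (by norm_num)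
  have hlog : Real.log q ≤ 16 * s := by
    have := Real.log_le_rpow_div hq0 (ε := 1 / 16) (by norm_num)
    linarith
  have hlog0 : 0 ≤ Real.log q := Real.log_nonneg hq1
  have hl : 1 + Real.log q ≤ 17 * s := by linarith
  have hs12 : (q : ℝ) ^ (3 / 4 : ℝ) = s ^ 12 := by
    rw [hs, ← Real.rpow_natCast, ← Real.rpow_mul hq0]
    norm_num
  have hs16 : (q : ℝ) = s ^ 16 := by
    rw [hs, ← Real.rpow_natCast, ← Real.rpow_mul hq0]
    norm_num
  have hs2 : (11560000 : ℝ) ≤ s ^ 2 := by
    have h1 : ((11560000 : ℝ)) ^ 8 ≤ (s ^ 2) ^ 8 := by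
      rw [← pow_mul]
      norm_num only
      norm_num only at hq'
      rw [← hs16]
      exact hq'
    exact le_of_pow_le_pow_left₀ (by norm_num) (by positivity) h1
  rw [hs12]
  have hs12' : 1 ≤ s ^ 12 := one_le_pow₀ hs1
  have h1 : (1 + Real.log q) * (1 + Real.log q) ≤ (17 * s) * (17 * s) :=
    mul_le_mul hl hl (by linarith) (by linarith)
  have h2 : 2 * s ^ 12 + 3 ≤ 5 * s ^ 12 := by linarith
  have h3 : (1 + Real.log q) * (1 + Real.log q) * (2 * s ^ 12 + 3) ≤
      (17 * s) * (17 * s) * (5 * s ^ 12) :=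
    mul_le_mul h1 h2 (by positivity) (by positivity)
  refine h3.trans ?_
  rw [le_div_iff₀ (by norm_num), hs16]
  have h4 : s ^ 16 = s ^ 14 * s ^ 2 := by ring
  have h5 : 1 ≤ s ^ 14 := one_le_pow₀ hs1
  rw [h4]
  have h6 : s ^ 14 * 11560000 ≤ s ^ 14 * s ^ 2 := mul_le_mul_of_nonneg_left hs2 (by positivity)
  nlinarith

/-- The carry expression takes values in `{-1, 0, 1}`, and vanishes iff there is no carry. -/
theorem carry {N : ℕ} [NeZero N] (x y t : ZMod N) :
    (saw N (x + t) + saw N (y + t) - saw N (x + y + t) - saw N t = -1 ∨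
      saw N (x + t) + saw N (y + t) - saw N (x + y + t) - saw N t = 0 ∨
      saw N (x + t) + saw N (y + t) - saw N (x + y + t) - saw N t = 1) ∧
    (saw N (x + t) + saw N (y + t) - saw N (x + y + t) - saw N t = 0 →
      (x + t).val + (y + t).val = (x + y + t).val + t.val) := by
  have hN : (0 : ℝ) < N := Nat.cast_pos.2 (NeZero.pos N)
  have h0 : saw N (x + t) + saw N (y + t) - saw N (x + y + t) - saw N t =
      (((x + t).val : ℝ) + (y + t).val - (x + y + t).val - t.val) / N := by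
    unfold saw
    field_simp
    ring
  have hA := ZMod.val_lt (x + t)
  have hB := ZMod.val_lt (y + t)
  have hC := ZMod.val_lt (x + y + t)
  have hD := ZMod.val_lt t
  have hmod : ((x + t).val + (y + t).val) % N = ((x + y + t).val + t.val) % N := by
    rw [← ZMod.val_add, ← ZMod.val_add]
    congr 1
    ring
  set A := (x + t).val
  set B := (y + t).val
  set C := (x + y + t).val
  set D := t.val
  have hcases : A + B + N = C + D ∨ A + B = C + D ∨ A + B = C + D + N := by
    have e1 := Nat.div_add_mod (A + B) N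
    have e2 := Nat.div_add_mod (C + D) N
    have d1 : (A + B) / N < 2 := by
      rw [Nat.div_lt_iff_lt_mul (NeZero.pos N)]; omega
    have d2 : (C + D) / N < 2 := by
      rw [Nat.div_lt_iff_lt_mul (NeZero.pos N)]; omega
    rw [hmod] at e1
    have c1 : (A + B) / N = 0 ∨ (A + B) / N = 1 := by
      generalize (A + B) / N = k at d1 ⊢
      omega
    have c2 : (C + D) / N = 0 ∨ (C + D) / N = 1 := by
      generalize (C + D) / N = k at d2 ⊢
      omega
    rcases c1 with c1 | c1 <;> rcases c2 with c2 | c2 <;> rw [c1] at e1 <;> rw [c2] at e2 <;> omega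
  rw [h0]
  constructor
  · rcases hcases with h | h | h
    · left
      have : (A : ℝ) + B + N = C + D := by exact_mod_cast h
      rw [div_eq_iff hN.ne']; linarith
    · right; left
      have : (A : ℝ) + B = C + D := by exact_mod_cast h
      rw [div_eq_iff hN.ne']; linarith
    · right; right
      have : (A : ℝ) + B = C + D + N := by exact_mod_cast h
      rw [div_eq_iff hN.ne']; linarith
  · intro h
    rw [div_eq_zero_iff] at h
    rcases h with h | h
    · have : (A : ℝ) + B = C + D := by linarith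
      exact_mod_cast this
    · exact absurd h hN.ne'

end Pool.Agent.Work.MP_9bdca2_co
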