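import Mathlib
import Pool.Agent.Work.MP_9bdca2_co.CharSums

/-!
# Discrete logarithms and the associated multiplicative characters
-/

set_option autoImplicit false
set_option linter.unusedSectionVars false

namespace Pool.Agent.Work.MP_9bdca2_co

open Finset

variable {F : Type*} [Field F] [Fintype F]

/-- `α` is a primitive element of the finite field `F`: a generator of the multiplicative group. -/
def PrimElt (α : F) : Prop := α ≠ 0 ∧ ∀ x : F, x ≠ 0 → ∃ k : ℕ, α ^ k = x

theorem PrimElt.order_eq {α : F} (hα : PrimElt α) : orderOf α = Fintype.card F - 1 := by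
  classical
  have h1 : orderOf (Units.mk0 α hα.1) = Nat.card Fˣ := by
    refine orderOf_eq_card_of_forall_mem_zpowers fun x => ?_
    obtain ⟨k, hk⟩ := hα.2 x x.ne_zero
    refine Subgroup.mem_zpowers_iff.2 ⟨k, ?_⟩
    ext
    rw [zpow_natCast, Units.val_pow_eq_pow_val, Units.val_mk0, hk]
  rw [← orderOf_units, Units.val_mk0] at h1
  rw [h1, Nat.card_eq_fintype_card, Fintype.card_units]

theorem PrimElt.pow_eq_pow_iff {α : F} (hα : PrimElt α) {i j : ℕ} :
    α ^ i = α ^ j ↔ ((i : ZMod (Fintype.card F - 1)) = j) := by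
  rw [ZMod.natCast_eq_natCast_iff, ← hα.order_eq]
  have h1 : α ^ i = α ^ j ↔ (Units.mk0 α hα.1) ^ i = (Units.mk0 α hα.1) ^ j := by
    rw [Units.ext_iff]
    simp
  rw [h1, pow_eq_pow_iff_modEq, ← orderOf_units, Units.val_mk0]

open Classical in
/-- The discrete logarithm with respect to `α`. -/
noncomputable def dlog (α : F) (x : F) : ZMod (Fintype.card F - 1) :=
  if h : ∃ k : ℕ, α ^ k = x then (h.choose : ZMod (Fintype.card F - 1)) else 0

theorem dlog_pow {α : F} (hα : PrimElt α) (k : ℕ) : dlog α (α ^ k) = k := by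
  unfold dlog
  have h : ∃ j : ℕ, α ^ j = α ^ k := ⟨k, rfl⟩
  rw [dif_pos h]
  exact hα.pow_eq_pow_iff.1 h.choose_spec

theorem dlog_mul {α : F} (hα : PrimElt α) {x y : F} (hx : x ≠ 0) (hy : y ≠ 0) :
    dlog α (x * y) = dlog α x + dlog α y := by
  obtain ⟨i, rfl⟩ := hα.2 x hx
  obtain ⟨j, rfl⟩ := hα.2 y hy
  rw [← pow_add, dlog_pow hα, dlog_pow hα, dlog_pow hα, Nat.cast_add]

theorem pow_dlog {α : F} (hα : PrimElt α) [NeZero (Fintype.card F - 1)] {x : F} (hx : x ≠ 0) :
    α ^ (dlog α x).val = x := by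
  obtain ⟨i, rfl⟩ := hα.2 x hx
  rw [hα.pow_eq_pow_iff, dlog_pow hα, ZMod.natCast_zmod_val]

theorem dlog_one {α : F} (hα : PrimElt α) : dlog α 1 = 0 := by
  have := dlog_pow hα 0
  simpa using this

theorem dlog_self {α : F} (hα : PrimElt α) : dlog α α = 1 := by
  have := dlog_pow hα 1
  simpa using this

/-- The multiplicative character attached to a frequency. -/
noncomputable def mchar [DecidableEq F] {α : F} (hα : PrimElt α) [NeZero (Fintype.card F - 1)]
    (m : ZMod (Fintype.card F - 1)) : MulChar F ℂ :=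
  { toFun := fun x => if x = 0 then 0 else ZMod.stdAddChar (m * dlog α x)
    map_one' := by
      rw [if_neg one_ne_zero, dlog_one hα, mul_zero, AddChar.map_zero_eq_one]
    map_mul' := by
      intro x y
      by_cases hx : x = 0
      · simp [hx]
      by_cases hy : y = 0
      · simp [hy]
      rw [if_neg (mul_ne_zero hx hy), if_neg hx, if_neg hy, dlog_mul hα hx hy, mul_add,
        AddChar.map_add_eq_mul]
    map_nonunit' := by
      intro x hx
      have : x = 0 := by
        by_contra h
        exact hx (isUnit_iff_ne_zero.2 h)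
      exact if_pos this }

theorem mchar_apply [DecidableEq F] {α : F} (hα : PrimElt α) [NeZero (Fintype.card F - 1)]
    (m : ZMod (Fintype.card F - 1)) {x : F} (hx : x ≠ 0) :
    mchar hα m x = ZMod.stdAddChar (m * dlog α x) := by
  change (if x = 0 then 0 else ZMod.stdAddChar (m * dlog α x) : ℂ) = _
  rw [if_neg hx]

theorem mchar_ne_one [DecidableEq F] {α : F} (hα : PrimElt α) [NeZero (Fintype.card F - 1)]
    {m : ZMod (Fintype.card F - 1)} (hm : m ≠ 0) : mchar hα m ≠ 1 := by
  intro h
  have h1 : mchar hα m α = 1 := by rw [h, MulChar.one_apply hα.1.isUnit]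
  rw [mchar_apply hα m hα.1, dlog_self hα, mul_one] at h1
  apply hm
  apply ZMod.injective_stdAddChar
  rw [h1, AddChar.map_zero_eq_one]

end Pool.Agent.Work.MP_9bdca2_co
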