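import Mathlib

/-!
# The abstract second moment argument

Six real functions `x, y, z, x', y', z'` on a finite set, with `x + y - z - σ` and
`x' + y' - z' - σ'` valued in `{-1, 0, 1}`. If the second moments behave as for independent
uniform variables (only the cross terms with `z` or `z'` are left free) then some point has both
expressions equal to zero.
-/

set_option autoImplicit false

namespace Pool.Agent.Work.MP_9bdca2_co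

open Finset

theorem abs_mul_le_of {a b A B : ℝ} (ha : |a| ≤ A) (hb : |b| ≤ B) : |a * b| ≤ A * B := by
  rw [abs_mul]
  exact mul_le_mul ha hb (abs_nonneg _) (le_trans (abs_nonneg _) ha)

theorem sq_add_sq_sub_le {a b A : ℝ} (ha : 0 ≤ a) (hb : 0 ≤ b) (haA : a ≤ A) (hbA : b ≤ A) :
    a ^ 2 + b ^ 2 - a * b ≤ A ^ 2 := by
  rcases le_total a b with h | h
  · have h1 : a * a ≤ a * b := mul_le_mul_of_nonneg_left h ha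
    have h2 : b * b ≤ A * A := mul_le_mul hbA hbA hb (hb.trans hbA)
    linarith [h1, h2, sq a, sq b, sq A]
  · have h1 : b * b ≤ a * b := mul_le_mul_of_nonneg_right h hb
    have h2 : a * a ≤ A * A := mul_le_mul haA haA ha (ha.trans haA)
    linarith [h1, h2, sq a, sq b, sq A]

/-- The numerical heart of the argument. -/
theorem numeric (M σ σ' s Sx Sy Sz Sxx Syy Szz Sxy Sxz Syz
    Sx' Sy' Sz' Sxx' Syy' Szz' Sxy' Sxz' Syz' Cxx Cxy Cyx Cyy D : ℝ)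
    (hM : 0 < M) (hs : s = 1 ∨ s = -1) (hsσ : 0 ≤ s * (σ * σ'))
    (hσ : |σ| ≤ 1 / 2 + 1 / 4000) (hσ' : |σ'| ≤ 1 / 2 + 1 / 4000)
    (h1 : |Sx| ≤ M / 4000) (h2 : |Sy| ≤ M / 4000) (h3 : |Sz| ≤ M / 4000)
    (h4 : Sxx ≤ M / 12 + M / 4000) (h5 : Syy ≤ M / 12 + M / 4000) (h6 : Szz ≤ M / 12 + M / 4000)
    (h7 : |Sxy| ≤ M / 4000) (h8 : |Sxz| ≤ M / 4000) (h9 : |Syz| ≤ M / 4000)
    (h1' : |Sx'| ≤ M / 4000) (h2' : |Sy'| ≤ M / 4000) (h3' : |Sz'| ≤ M / 4000)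
    (h4' : Sxx' ≤ M / 12 + M / 4000) (h5' : Syy' ≤ M / 12 + M / 4000)
    (h6' : Szz' ≤ M / 12 + M / 4000)
    (h7' : |Sxy'| ≤ M / 4000) (h8' : |Sxz'| ≤ M / 4000) (h9' : |Syz'| ≤ M / 4000)
    (c1 : |Cxx| ≤ M / 4000) (c2 : |Cxy| ≤ M / 4000) (c3 : |Cyx| ≤ M / 4000) (c4 : |Cyy| ≤ M / 4000)
    (key : s * ((Cxx + Cxy + Cyx + Cyy - D) - σ' * (Sx + Sy - Sz) - σ * (Sx' + Sy' - Sz') +
        M * (σ * σ')) ≤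
      (Sxx + Syy + Szz + 2 * Sxy - 2 * Sxz - 2 * Syz - 2 * σ * (Sx + Sy - Sz) + M * σ ^ 2) +
      (Sxx' + Syy' + Szz' + 2 * Sxy' - 2 * Sxz' - 2 * Syz' - 2 * σ' * (Sx' + Sy' - Sz') +
        M * σ' ^ 2) - M)
    (sos : 14 / 5 * (s * D) ≤ (Sxx + Syy + 2 * Sxy) + (Sxx' + Syy' + 2 * Sxy') +
      49 / 25 * (Szz + Szz') + 10 / 7 * (s * (Cxx + Cxy + Cyx + Cyy)) - 2 * (Sxz + Syz) -
        2 * (Sxz' + Syz')) : False := by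
  have e0 : 0 < M / 4000 := by positivity
  have hT : |Sx + Sy - Sz| ≤ 3 * (M / 4000) := by
    rw [abs_le] at *; constructor <;> linarith
  have hT' : |Sx' + Sy' - Sz'| ≤ 3 * (M / 4000) := by
    rw [abs_le] at *; constructor <;> linarith
  have p1 := abs_mul_le_of hσ' hT
  have p2 := abs_mul_le_of hσ hT'
  have p3 := abs_mul_le_of hσ hT
  have p4 := abs_mul_le_of hσ' hT'
  have habs : σ ^ 2 + σ' ^ 2 - s * (σ * σ') ≤ (1 / 2 + 1 / 4000) ^ 2 := by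
    have hsa : s * (σ * σ') = |σ| * |σ'| := by
      rw [← abs_mul]
      rcases hs with rfl | rfl
      · rw [one_mul] at hsσ ⊢; exact (abs_of_nonneg hsσ).symm
      · rw [neg_one_mul] at hsσ ⊢
        exact (abs_of_nonpos (by linarith)).symm
    rw [hsa, ← sq_abs σ, ← sq_abs σ']
    exact sq_add_sq_sub_le (abs_nonneg σ) (abs_nonneg σ') hσ hσ'
  have hscale : M * (σ ^ 2 + σ' ^ 2 - s * (σ * σ')) ≤ M * (1 / 2 + 1 / 4000) ^ 2 :=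
    mul_le_mul_of_nonneg_left habs hM.le
  rw [abs_le] at h1 h2 h3 h7 h8 h9 h1' h2' h3' h7' h8' h9' c1 c2 c3 c4 p1 p2 p3 p4
  obtain ⟨h7a, h7b⟩ := h7
  obtain ⟨h8a, h8b⟩ := h8
  obtain ⟨h9a, h9b⟩ := h9
  obtain ⟨h7a', h7b'⟩ := h7'
  obtain ⟨h8a', h8b'⟩ := h8'
  obtain ⟨h9a', h9b'⟩ := h9'
  obtain ⟨c1a, c1b⟩ := c1
  obtain ⟨c2a, c2b⟩ := c2
  obtain ⟨c3a, c3b⟩ := c3
  obtain ⟨c4a, c4b⟩ := c4
  obtain ⟨p1a, p1b⟩ := p1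
  obtain ⟨p2a, p2b⟩ := p2
  obtain ⟨p3a, p3b⟩ := p3
  obtain ⟨p4a, p4b⟩ := p4
  rcases hs with rfl | rfl
  · linarith
  · linarith

theorem abstract_main {ι : Type*} (Ω : Finset ι) (hΩ : Ω.Nonempty)
    (x y z x' y' z' : ι → ℝ) (σ σ' : ℝ)
    (hσ : |σ| ≤ 1 / 2 + 1 / 4000) (hσ' : |σ'| ≤ 1 / 2 + 1 / 4000)
    (hν : ∀ u ∈ Ω, x u + y u - z u - σ = -1 ∨ x u + y u - z u - σ = 0 ∨ x u + y u - z u - σ = 1)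
    (hν' : ∀ u ∈ Ω, x' u + y' u - z' u - σ' = -1 ∨ x' u + y' u - z' u - σ' = 0 ∨
      x' u + y' u - z' u - σ' = 1)
    (h1 : |∑ u ∈ Ω, x u| ≤ (Ω.card : ℝ) / 4000) (h2 : |∑ u ∈ Ω, y u| ≤ (Ω.card : ℝ) / 4000)
    (h3 : |∑ u ∈ Ω, z u| ≤ (Ω.card : ℝ) / 4000)
    (h4 : ∑ u ∈ Ω, x u ^ 2 ≤ (Ω.card : ℝ) / 12 + (Ω.card : ℝ) / 4000)
    (h5 : ∑ u ∈ Ω, y u ^ 2 ≤ (Ω.card : ℝ) / 12 + (Ω.card : ℝ) / 4000)
    (h6 : ∑ u ∈ Ω, z u ^ 2 ≤ (Ω.card : ℝ) / 12 + (Ω.card : ℝ) / 4000)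
    (h7 : |∑ u ∈ Ω, x u * y u| ≤ (Ω.card : ℝ) / 4000)
    (h8 : |∑ u ∈ Ω, x u * z u| ≤ (Ω.card : ℝ) / 4000)
    (h9 : |∑ u ∈ Ω, y u * z u| ≤ (Ω.card : ℝ) / 4000)
    (h1' : |∑ u ∈ Ω, x' u| ≤ (Ω.card : ℝ) / 4000) (h2' : |∑ u ∈ Ω, y' u| ≤ (Ω.card : ℝ) / 4000)
    (h3' : |∑ u ∈ Ω, z' u| ≤ (Ω.card : ℝ) / 4000)
    (h4' : ∑ u ∈ Ω, x' u ^ 2 ≤ (Ω.card : ℝ) / 12 + (Ω.card : ℝ) / 4000)
    (h5' : ∑ u ∈ Ω, y' u ^ 2 ≤ (Ω.card : ℝ) / 12 + (Ω.card : ℝ) / 4000)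
    (h6' : ∑ u ∈ Ω, z' u ^ 2 ≤ (Ω.card : ℝ) / 12 + (Ω.card : ℝ) / 4000)
    (h7' : |∑ u ∈ Ω, x' u * y' u| ≤ (Ω.card : ℝ) / 4000)
    (h8' : |∑ u ∈ Ω, x' u * z' u| ≤ (Ω.card : ℝ) / 4000)
    (h9' : |∑ u ∈ Ω, y' u * z' u| ≤ (Ω.card : ℝ) / 4000)
    (c1 : |∑ u ∈ Ω, x u * x' u| ≤ (Ω.card : ℝ) / 4000)
    (c2 : |∑ u ∈ Ω, x u * y' u| ≤ (Ω.card : ℝ) / 4000)
    (c3 : |∑ u ∈ Ω, y u * x' u| ≤ (Ω.card : ℝ) / 4000)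
    (c4 : |∑ u ∈ Ω, y u * y' u| ≤ (Ω.card : ℝ) / 4000) :
    ∃ u ∈ Ω, x u + y u - z u - σ = 0 ∧ x' u + y' u - z' u - σ' = 0 := by
  by_contra hcon
  push Not at hcon
  have hM : (0 : ℝ) < (Ω.card : ℝ) := by exact_mod_cast hΩ.card_pos
  -- choice of the sign
  obtain ⟨s, hs, hsσ⟩ : ∃ s : ℝ, (s = 1 ∨ s = -1) ∧ 0 ≤ s * (σ * σ') := by
    rcases le_total 0 (σ * σ') with h | h
    · exact ⟨1, Or.inl rfl, by linarith⟩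
    · exact ⟨-1, Or.inr rfl, by linarith⟩
  have hpt : ∀ u ∈ Ω, s * ((x u + y u - z u - σ) * (x' u + y' u - z' u - σ')) ≤
      (x u + y u - z u - σ) ^ 2 + (x' u + y' u - z' u - σ') ^ 2 - 1 := by
    intro u hu
    have a1 := hν u hu
    have a2 := hν' u hu
    have a3 := hcon u hu
    generalize x u + y u - z u - σ = ν at *
    generalize x' u + y' u - z' u - σ' = ν' at *
    rcases hs with rfl | rfl <;> rcases a1 with rfl | rfl | rfl <;> rcases a2 with rfl | rfl | rfl <;>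
      first
      | exact absurd rfl (a3 rfl)
      | norm_num
  have hsum := sum_le_sum hpt
  have hsos : ∑ u ∈ Ω, 0 ≤ ∑ u ∈ Ω, (((x u + y u) - 7 / 5 * (s * z' u)) ^ 2 +
      (s * (x' u + y' u) - 7 / 5 * z u) ^ 2 +
      10 / 7 * (((x u + y u) - 7 / 5 * (s * z' u)) * (s * (x' u + y' u) - 7 / 5 * z u))) := by
    refine sum_le_sum fun u _ => ?_
    nlinarith [sq_nonneg (((x u + y u) - 7 / 5 * (s * z' u)) + (s * (x' u + y' u) - 7 / 5 * z u)),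
      sq_nonneg ((x u + y u) - 7 / 5 * (s * z' u)), sq_nonneg (s * (x' u + y' u) - 7 / 5 * z u)]
  refine numeric (Ω.card : ℝ) σ σ' s (∑ u ∈ Ω, x u) (∑ u ∈ Ω, y u) (∑ u ∈ Ω, z u)
    (∑ u ∈ Ω, x u ^ 2) (∑ u ∈ Ω, y u ^ 2) (∑ u ∈ Ω, z u ^ 2)
    (∑ u ∈ Ω, x u * y u) (∑ u ∈ Ω, x u * z u) (∑ u ∈ Ω, y u * z u)
    (∑ u ∈ Ω, x' u) (∑ u ∈ Ω, y' u) (∑ u ∈ Ω, z' u)
    (∑ u ∈ Ω, x' u ^ 2) (∑ u ∈ Ω, y' u ^ 2) (∑ u ∈ Ω, z' u ^ 2)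
    (∑ u ∈ Ω, x' u * y' u) (∑ u ∈ Ω, x' u * z' u) (∑ u ∈ Ω, y' u * z' u)
    (∑ u ∈ Ω, x u * x' u) (∑ u ∈ Ω, x u * y' u) (∑ u ∈ Ω, y u * x' u) (∑ u ∈ Ω, y u * y' u)
    (∑ u ∈ Ω, ((x u + y u) * z' u + z u * (x' u + y' u) - z u * z' u))
    hM hs hsσ hσ hσ' h1 h2 h3 h4 h5 h6 h7 h8 h9 h1' h2' h3' h4' h5' h6' h7' h8' h9'
    c1 c2 c3 c4 ?_ ?_
  · have hcard : (Ω.card : ℝ) = ∑ u ∈ Ω, (1 : ℝ) := by simp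
    rw [hcard]
    have e1 : s * ((∑ u ∈ Ω, x u * x' u + ∑ u ∈ Ω, x u * y' u + ∑ u ∈ Ω, y u * x' u +
        ∑ u ∈ Ω, y u * y' u - ∑ u ∈ Ω, ((x u + y u) * z' u + z u * (x' u + y' u) - z u * z' u)) -
        σ' * (∑ u ∈ Ω, x u + ∑ u ∈ Ω, y u - ∑ u ∈ Ω, z u) -
        σ * (∑ u ∈ Ω, x' u + ∑ u ∈ Ω, y' u - ∑ u ∈ Ω, z' u) + (∑ u ∈ Ω, (1 : ℝ)) * (σ * σ')) =
        ∑ u ∈ Ω, s * ((x u + y u - z u - σ) * (x' u + y' u - z' u - σ')) := by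
      simp only [mul_sum, sum_mul, ← sum_add_distrib, ← sum_sub_distrib]
      refine sum_congr rfl fun u _ => ?_
      ring
    have e2 : (∑ u ∈ Ω, x u ^ 2 + ∑ u ∈ Ω, y u ^ 2 + ∑ u ∈ Ω, z u ^ 2 + 2 * ∑ u ∈ Ω, x u * y u -
        2 * ∑ u ∈ Ω, x u * z u - 2 * ∑ u ∈ Ω, y u * z u -
        2 * σ * (∑ u ∈ Ω, x u + ∑ u ∈ Ω, y u - ∑ u ∈ Ω, z u) + (∑ u ∈ Ω, (1 : ℝ)) * σ ^ 2) +
        (∑ u ∈ Ω, x' u ^ 2 + ∑ u ∈ Ω, y' u ^ 2 + ∑ u ∈ Ω, z' u ^ 2 + 2 * ∑ u ∈ Ω, x' u * y' u -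
        2 * ∑ u ∈ Ω, x' u * z' u - 2 * ∑ u ∈ Ω, y' u * z' u -
        2 * σ' * (∑ u ∈ Ω, x' u + ∑ u ∈ Ω, y' u - ∑ u ∈ Ω, z' u) +
          (∑ u ∈ Ω, (1 : ℝ)) * σ' ^ 2) - ∑ u ∈ Ω, (1 : ℝ) =
        ∑ u ∈ Ω, ((x u + y u - z u - σ) ^ 2 + (x' u + y' u - z' u - σ') ^ 2 - 1) := by
      simp only [mul_sum, sum_mul, ← sum_add_distrib, ← sum_sub_distrib]
      refine sum_congr rfl fun u _ => ?_
      ring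
    rw [e1, e2]
    exact hsum
  · have hs2 : s * s = 1 := by rcases hs with rfl | rfl <;> norm_num
    have e3 : ∑ u ∈ Ω, (((x u + y u) - 7 / 5 * (s * z' u)) ^ 2 +
      (s * (x' u + y' u) - 7 / 5 * z u) ^ 2 +
      10 / 7 * (((x u + y u) - 7 / 5 * (s * z' u)) * (s * (x' u + y' u) - 7 / 5 * z u))) =
        ((∑ u ∈ Ω, x u ^ 2 + ∑ u ∈ Ω, y u ^ 2 + 2 * ∑ u ∈ Ω, x u * y u) +
        (∑ u ∈ Ω, x' u ^ 2 + ∑ u ∈ Ω, y' u ^ 2 + 2 * ∑ u ∈ Ω, x' u * y' u) +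
        49 / 25 * (∑ u ∈ Ω, z u ^ 2 + ∑ u ∈ Ω, z' u ^ 2) +
        10 / 7 * (s * (∑ u ∈ Ω, x u * x' u + ∑ u ∈ Ω, x u * y' u + ∑ u ∈ Ω, y u * x' u +
        ∑ u ∈ Ω, y u * y' u)) - 2 * (∑ u ∈ Ω, x u * z u + ∑ u ∈ Ω, y u * z u) -
        2 * (∑ u ∈ Ω, x' u * z' u + ∑ u ∈ Ω, y' u * z' u)) -
        14 / 5 * (s * ∑ u ∈ Ω, ((x u + y u) * z' u + z u * (x' u + y' u) - z u * z' u)) := by
      simp only [mul_sum, ← sum_add_distrib, ← sum_sub_distrib]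
      refine sum_congr rfl fun u _ => ?_
      linear_combination (49 / 25 * z' u ^ 2 + (x' u + y' u) ^ 2 - 2 * z' u * (x' u + y' u)) * hs2
    rw [e3] at hsos
    rw [sum_const_zero] at hsos
    linarith

end Pool.Agent.Work.MP_9bdca2_co
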