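import Mathlib
import Pool.Agent.Work.MP_9bdca2_co.Saw
import Pool.Agent.Work.MP_9bdca2_co.Abstract

/-!
# From exponential sums to the existence of a point without carries
-/

set_option autoImplicit false

namespace Pool.Agent.Work.MP_9bdca2_co

open Finset

variable {ι : Type*}

theorem norm_std {N : ℕ} [NeZero N] (x : ZMod N) : ‖(ZMod.stdAddChar x : ℂ)‖ = 1 := by
  rw [ZMod.stdAddChar_apply, Circle.norm_coe]

theorem sum_saw_le (Ω : Finset ι) {N : ℕ} [NeZero N] (a : ι → ZMod N) (r : ZMod N) {B : ℝ}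
    (h : ∀ m : ZMod N, m ≠ 0 → ‖∑ u ∈ Ω, (ZMod.stdAddChar (m * a u) : ℂ)‖ ≤ B) :
    |∑ u ∈ Ω, saw N (a u + r)| ≤ Lsaw N * B := by
  have h1 : ((∑ u ∈ Ω, saw N (a u + r) : ℝ) : ℂ) =
      ∑ m : ZMod N, sc N m * ZMod.stdAddChar (m * r) * ∑ u ∈ Ω, (ZMod.stdAddChar (m * a u) : ℂ) := by
    rw [Complex.ofReal_sum]
    simp_rw [saw_expansion, mul_sum]
    rw [sum_comm]
    refine sum_congr rfl fun m _ => sum_congr rfl fun u _ => ?_
    rw [mul_add, AddChar.map_add_eq_mul]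
    ring
  have h2 : |∑ u ∈ Ω, saw N (a u + r)| = ‖((∑ u ∈ Ω, saw N (a u + r) : ℝ) : ℂ)‖ := by
    rw [Complex.norm_real, Real.norm_eq_abs]
  rw [h2, h1]
  refine (norm_sum_le _ _).trans ?_
  unfold Lsaw
  rw [sum_mul]
  refine sum_le_sum fun m _ => ?_
  by_cases hm : m = 0
  · subst hm; simp [sc_zero]
  · rw [norm_mul, norm_mul, norm_std, mul_one]
    exact mul_le_mul_of_nonneg_left (h m hm) (norm_nonneg _)

theorem sum_saw_mul_le (Ω : Finset ι) {N N' : ℕ} [NeZero N] [NeZero N'] (a : ι → ZMod N)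
    (a' : ι → ZMod N') (r : ZMod N) (r' : ZMod N') {B : ℝ}
    (h : ∀ (m : ZMod N) (m' : ZMod N'), m ≠ 0 → m' ≠ 0 →
      ‖∑ u ∈ Ω, (ZMod.stdAddChar (m * a u) : ℂ) * ZMod.stdAddChar (m' * a' u)‖ ≤ B) :
    |∑ u ∈ Ω, saw N (a u + r) * saw N' (a' u + r')| ≤ Lsaw N * Lsaw N' * B := by
  have h1 : ((∑ u ∈ Ω, saw N (a u + r) * saw N' (a' u + r') : ℝ) : ℂ) =
      ∑ m : ZMod N, ∑ m' : ZMod N', sc N m * ZMod.stdAddChar (m * r) *
        (sc N' m' * ZMod.stdAddChar (m' * r')) *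
        ∑ u ∈ Ω, (ZMod.stdAddChar (m * a u) : ℂ) * ZMod.stdAddChar (m' * a' u) := by
    rw [Complex.ofReal_sum]
    simp_rw [Complex.ofReal_mul, saw_expansion, sum_mul_sum, mul_sum]
    rw [sum_comm]
    refine sum_congr rfl fun m _ => ?_
    rw [sum_comm]
    refine sum_congr rfl fun m' _ => sum_congr rfl fun u _ => ?_
    rw [mul_add, mul_add, AddChar.map_add_eq_mul, AddChar.map_add_eq_mul]
    ring
  have h2 : |∑ u ∈ Ω, saw N (a u + r) * saw N' (a' u + r')| =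
      ‖((∑ u ∈ Ω, saw N (a u + r) * saw N' (a' u + r') : ℝ) : ℂ)‖ := by
    rw [Complex.norm_real, Real.norm_eq_abs]
  rw [h2, h1]
  refine (norm_sum_le _ _).trans ?_
  unfold Lsaw
  rw [sum_mul_sum, sum_mul]
  refine sum_le_sum fun m _ => (norm_sum_le _ _).trans ?_
  rw [sum_mul]
  refine sum_le_sum fun m' _ => ?_
  by_cases hm : m = 0
  · subst hm; simp [sc_zero]
  by_cases hm' : m' = 0
  · subst hm'; simp [sc_zero]
  rw [norm_mul, norm_mul, norm_mul, norm_mul, norm_std, norm_std, mul_one, mul_one]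
  exact mul_le_mul_of_nonneg_left (h m m' hm hm') (by positivity)

theorem sq_expand (Ω : Finset ι) {N : ℕ} [NeZero N] (a : ι → ZMod N) (r : ZMod N) :
    ((∑ u ∈ Ω, saw N (a u + r) ^ 2 : ℝ) : ℂ) =
      ∑ m : ZMod N, ∑ m' : ZMod N, sc N m * sc N m' * ZMod.stdAddChar ((m + m') * r) *
        ∑ u ∈ Ω, (ZMod.stdAddChar ((m + m') * a u) : ℂ) := by
  rw [Complex.ofReal_sum]
  simp_rw [Complex.ofReal_pow, sq, saw_expansion, sum_mul_sum, mul_sum]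
  rw [sum_comm]
  refine sum_congr rfl fun m _ => ?_
  rw [sum_comm]
  refine sum_congr rfl fun m' _ => sum_congr rfl fun u _ => ?_
  rw [mul_add, mul_add, AddChar.map_add_eq_mul, AddChar.map_add_eq_mul, add_mul, add_mul,
    AddChar.map_add_eq_mul, AddChar.map_add_eq_mul]
  ring

theorem sc_mul_neg (N : ℕ) [NeZero N] :
    (N : ℂ) * ∑ m : ZMod N, sc N m * sc N (-m) = ((∑ x : ZMod N, saw N x ^ 2 : ℝ) : ℂ) := by
  have h := sq_expand (univ : Finset (ZMod N)) (fun x => x) 0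
  simp only [add_zero, mul_zero, AddChar.map_zero_eq_one, mul_one] at h
  rw [h, mul_sum]
  refine sum_congr rfl fun m _ => ?_
  rw [Finset.sum_eq_single (-m)]
  · simp only [add_neg_cancel, zero_mul, AddChar.map_zero_eq_one, sum_const, card_univ, ZMod.card,
      nsmul_eq_mul, mul_one]
    ring
  · intro m' _ hm'
    have : m + m' ≠ 0 := by
      intro h0
      exact hm' (eq_neg_of_add_eq_zero_right h0)
    rw [sum_stdAddChar_mul N _ this, mul_zero]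
  · intro h0; exact absurd (mem_univ _) h0

theorem sum_saw_sq_le (Ω : Finset ι) {N : ℕ} [NeZero N] (a : ι → ZMod N) (r : ZMod N) {B : ℝ}
    (hB : 0 ≤ B) (h : ∀ m : ZMod N, m ≠ 0 → ‖∑ u ∈ Ω, (ZMod.stdAddChar (m * a u) : ℂ)‖ ≤ B) :
    ∑ u ∈ Ω, saw N (a u + r) ^ 2 ≤ (Ω.card : ℝ) / 12 + Lsaw N * Lsaw N * B := by
  have hN : (0 : ℝ) < N := Nat.cast_pos.2 (NeZero.pos N)
  set P : ℂ := ∑ m : ZMod N, sc N m * sc N (-m) with hP
  have hPn : ‖P‖ ≤ 1 / 12 := by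
    have h1 := congrArg norm (sc_mul_neg N)
    rw [norm_mul, Complex.norm_natCast, Complex.norm_real, Real.norm_eq_abs,
      abs_of_nonneg (sum_nonneg fun _ _ => sq_nonneg _)] at h1
    have h2 := sum_saw_sq N
    rw [← h1] at h2
    have h3 : (N : ℝ) * ‖P‖ ≤ N * (1 / 12) := by rw [hP]; linarith
    exact le_of_mul_le_mul_left h3 hN
  have h1 : ((∑ u ∈ Ω, saw N (a u + r) ^ 2 : ℝ) : ℂ) - (Ω.card : ℂ) * P =
      ∑ m : ZMod N, ∑ m' ∈ univ.erase (-m), sc N m * sc N m' * ZMod.stdAddChar ((m + m') * r) *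
        ∑ u ∈ Ω, (ZMod.stdAddChar ((m + m') * a u) : ℂ) := by
    rw [sq_expand, hP, mul_sum, ← sum_sub_distrib]
    refine sum_congr rfl fun m _ => ?_
    rw [← Finset.add_sum_erase _ _ (mem_univ (-m))]
    simp only [add_neg_cancel, zero_mul, AddChar.map_zero_eq_one, sum_const,
      nsmul_eq_mul, mul_one]
    ring
  have h2 : ‖((∑ u ∈ Ω, saw N (a u + r) ^ 2 : ℝ) : ℂ) - (Ω.card : ℂ) * P‖ ≤
      Lsaw N * Lsaw N * B := by
    rw [h1]
    refine (norm_sum_le _ _).trans ?_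
    unfold Lsaw
    rw [sum_mul_sum, sum_mul]
    refine sum_le_sum fun m _ => (norm_sum_le _ _).trans ?_
    rw [sum_mul]
    refine (sum_le_sum (g := fun m' => ‖sc N m‖ * ‖sc N m'‖ * B) fun m' hm' => ?_).trans
      (sum_le_sum_of_subset_of_nonneg (subset_univ _) fun _ _ _ => by positivity)
    have hne : m + m' ≠ 0 := by
      intro h0
      exact (mem_erase.1 hm').1 (eq_neg_of_add_eq_zero_right h0)
    rw [norm_mul, norm_mul, norm_mul, norm_std, mul_one]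
    exact mul_le_mul_of_nonneg_left (h _ hne) (by positivity)
  have h3 : ∑ u ∈ Ω, saw N (a u + r) ^ 2 = ‖((∑ u ∈ Ω, saw N (a u + r) ^ 2 : ℝ) : ℂ)‖ := by
    rw [Complex.norm_real, Real.norm_eq_abs, abs_of_nonneg (sum_nonneg fun _ _ => sq_nonneg _)]
  rw [h3]
  calc ‖((∑ u ∈ Ω, saw N (a u + r) ^ 2 : ℝ) : ℂ)‖
      = ‖(Ω.card : ℂ) * P + (((∑ u ∈ Ω, saw N (a u + r) ^ 2 : ℝ) : ℂ) - (Ω.card : ℂ) * P)‖ := by
        congr 1; ring
    _ ≤ ‖(Ω.card : ℂ) * P‖ + Lsaw N * Lsaw N * B := (norm_add_le _ _).trans (by linarith)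
    _ ≤ (Ω.card : ℝ) / 12 + Lsaw N * Lsaw N * B := by
        rw [norm_mul, Complex.norm_natCast]
        have : (Ω.card : ℝ) * ‖P‖ ≤ Ω.card * (1 / 12) :=
          mul_le_mul_of_nonneg_left hPn (Nat.cast_nonneg _)
        linarith

/-- The master theorem: good control of the exponential sums forces a point `u` where both
carry expressions vanish. -/
theorem master (Ω : Finset ι) (hΩ : Ω.Nonempty) {N N' : ℕ} [NeZero N] [NeZero N']
    (a b : ι → ZMod N) (a' b' : ι → ZMod N') (B K : ℝ) (hB : 0 ≤ B) (hK : 1 ≤ K)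
    (hKN : Lsaw N ≤ K) (hKN' : Lsaw N' ≤ K) (hBK : K * K * B ≤ (Ω.card : ℝ) / 4000)
    (H : ∀ m n : ZMod N, (m ≠ 0 ∨ n ≠ 0) →
      ‖∑ u ∈ Ω, (ZMod.stdAddChar (m * a u) : ℂ) * ZMod.stdAddChar (n * b u)‖ ≤ B)
    (H' : ∀ m n : ZMod N', (m ≠ 0 ∨ n ≠ 0) →
      ‖∑ u ∈ Ω, (ZMod.stdAddChar (m * a' u) : ℂ) * ZMod.stdAddChar (n * b' u)‖ ≤ B)
    (Haa : ∀ (m : ZMod N) (m' : ZMod N'), m ≠ 0 → m' ≠ 0 →
      ‖∑ u ∈ Ω, (ZMod.stdAddChar (m * a u) : ℂ) * ZMod.stdAddChar (m' * a' u)‖ ≤ B)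
    (Hab : ∀ (m : ZMod N) (m' : ZMod N'), m ≠ 0 → m' ≠ 0 →
      ‖∑ u ∈ Ω, (ZMod.stdAddChar (m * a u) : ℂ) * ZMod.stdAddChar (m' * b' u)‖ ≤ B)
    (Hba : ∀ (m : ZMod N) (m' : ZMod N'), m ≠ 0 → m' ≠ 0 →
      ‖∑ u ∈ Ω, (ZMod.stdAddChar (m * b u) : ℂ) * ZMod.stdAddChar (m' * a' u)‖ ≤ B)
    (Hbb : ∀ (m : ZMod N) (m' : ZMod N'), m ≠ 0 → m' ≠ 0 →
      ‖∑ u ∈ Ω, (ZMod.stdAddChar (m * b u) : ℂ) * ZMod.stdAddChar (m' * b' u)‖ ≤ B)
    (r s t : ZMod N) (r' s' t' : ZMod N') (σ σ' : ℝ)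
    (hσ : |σ| ≤ 1 / 2 + 1 / 4000) (hσ' : |σ'| ≤ 1 / 2 + 1 / 4000)
    (hν : ∀ u ∈ Ω, saw N (a u + r) + saw N (b u + s) - saw N (a u + b u + t) - σ = -1 ∨
      saw N (a u + r) + saw N (b u + s) - saw N (a u + b u + t) - σ = 0 ∨
      saw N (a u + r) + saw N (b u + s) - saw N (a u + b u + t) - σ = 1)
    (hν' : ∀ u ∈ Ω, saw N' (a' u + r') + saw N' (b' u + s') - saw N' (a' u + b' u + t') - σ' = -1 ∨
      saw N' (a' u + r') + saw N' (b' u + s') - saw N' (a' u + b' u + t') - σ' = 0 ∨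
      saw N' (a' u + r') + saw N' (b' u + s') - saw N' (a' u + b' u + t') - σ' = 1) :
    ∃ u ∈ Ω, saw N (a u + r) + saw N (b u + s) - saw N (a u + b u + t) - σ = 0 ∧
      saw N' (a' u + r') + saw N' (b' u + s') - saw N' (a' u + b' u + t') - σ' = 0 := by
  have hL0 := Lsaw_nonneg N
  have hL0' := Lsaw_nonneg N'
  have hK0 : 0 ≤ K := by linarith
  -- bounds for one coordinate, in a form usable for both
  have one : ∀ {n : ℕ} [NeZero n] (c : ι → ZMod n) (ρ : ZMod n), Lsaw n ≤ K →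
      (∀ m : ZMod n, m ≠ 0 → ‖∑ u ∈ Ω, (ZMod.stdAddChar (m * c u) : ℂ)‖ ≤ B) →
      |∑ u ∈ Ω, saw n (c u + ρ)| ≤ (Ω.card : ℝ) / 4000 := by
    intro n _ c ρ hn hc
    refine (sum_saw_le Ω c ρ hc).trans (le_trans ?_ hBK)
    have h0 := Lsaw_nonneg n
    calc Lsaw n * B ≤ K * B := mul_le_mul_of_nonneg_right hn hB
      _ ≤ K * K * B := by
        apply mul_le_mul_of_nonneg_right _ hB
        nlinarith
  have sqb : ∀ {n : ℕ} [NeZero n] (c : ι → ZMod n) (ρ : ZMod n), Lsaw n ≤ K →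
      (∀ m : ZMod n, m ≠ 0 → ‖∑ u ∈ Ω, (ZMod.stdAddChar (m * c u) : ℂ)‖ ≤ B) →
      ∑ u ∈ Ω, saw n (c u + ρ) ^ 2 ≤ (Ω.card : ℝ) / 12 + (Ω.card : ℝ) / 4000 := by
    intro n _ c ρ hn hc
    refine (sum_saw_sq_le Ω c ρ hB hc).trans ?_
    have h0 := Lsaw_nonneg n
    have : Lsaw n * Lsaw n * B ≤ K * K * B := by
      apply mul_le_mul_of_nonneg_right _ hB
      exact mul_le_mul hn hn h0 hK0
    linarith
  have two : ∀ {n n' : ℕ} [NeZero n] [NeZero n'] (c : ι → ZMod n) (c' : ι → ZMod n') (ρ : ZMod n)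
      (ρ' : ZMod n'), Lsaw n ≤ K → Lsaw n' ≤ K →
      (∀ (m : ZMod n) (m' : ZMod n'), m ≠ 0 → m' ≠ 0 →
      ‖∑ u ∈ Ω, (ZMod.stdAddChar (m * c u) : ℂ) * ZMod.stdAddChar (m' * c' u)‖ ≤ B) →
      |∑ u ∈ Ω, saw n (c u + ρ) * saw n' (c' u + ρ')| ≤ (Ω.card : ℝ) / 4000 := by
    intro n n' _ _ c c' ρ ρ' hn hn' hc
    refine (sum_saw_mul_le Ω c c' ρ ρ' hc).trans (le_trans ?_ hBK)
    apply mul_le_mul_of_nonneg_right _ hB
    exact mul_le_mul hn hn' (Lsaw_nonneg n') hK0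
  -- exponential sums inside one coordinate
  have inner : ∀ {n : ℕ} [NeZero n] (c d : ι → ZMod n),
      (∀ m k : ZMod n, (m ≠ 0 ∨ k ≠ 0) →
        ‖∑ u ∈ Ω, (ZMod.stdAddChar (m * c u) : ℂ) * ZMod.stdAddChar (k * d u)‖ ≤ B) →
      (∀ m : ZMod n, m ≠ 0 → ‖∑ u ∈ Ω, (ZMod.stdAddChar (m * c u) : ℂ)‖ ≤ B) ∧
      (∀ m : ZMod n, m ≠ 0 → ‖∑ u ∈ Ω, (ZMod.stdAddChar (m * d u) : ℂ)‖ ≤ B) ∧
      (∀ m : ZMod n, m ≠ 0 → ‖∑ u ∈ Ω, (ZMod.stdAddChar (m * (c u + d u)) : ℂ)‖ ≤ B) ∧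
      (∀ m m' : ZMod n, m ≠ 0 → m' ≠ 0 →
        ‖∑ u ∈ Ω, (ZMod.stdAddChar (m * c u) : ℂ) * ZMod.stdAddChar (m' * (c u + d u))‖ ≤ B) ∧
      (∀ m m' : ZMod n, m ≠ 0 → m' ≠ 0 →
        ‖∑ u ∈ Ω, (ZMod.stdAddChar (m * d u) : ℂ) * ZMod.stdAddChar (m' * (c u + d u))‖ ≤ B) := by
    intro n _ c d h
    refine ⟨fun m hm => ?_, fun m hm => ?_, fun m hm => ?_, fun m m' hm hm' => ?_,
      fun m m' hm hm' => ?_⟩
    · have := h m 0 (Or.inl hm)
      simpa using this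
    · have := h 0 m (Or.inr hm)
      simpa using this
    · have := h m m (Or.inl hm)
      simpa only [mul_add, AddChar.map_add_eq_mul] using this
    · have := h (m + m') m' (Or.inr hm')
      refine le_trans (le_of_eq ?_) this
      congr 1
      refine sum_congr rfl fun u _ => ?_
      rw [← AddChar.map_add_eq_mul, ← AddChar.map_add_eq_mul]
      congr 1
      ring
    · have := h m' (m + m') (Or.inl hm')
      refine le_trans (le_of_eq ?_) this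
      congr 1
      refine sum_congr rfl fun u _ => ?_
      rw [← AddChar.map_add_eq_mul, ← AddChar.map_add_eq_mul]
      congr 1
      ring
  obtain ⟨i1, i2, i3, i4, i5⟩ := inner a b H
  obtain ⟨j1, j2, j3, j4, j5⟩ := inner a' b' H'
  exact abstract_main Ω hΩ (fun u => saw N (a u + r)) (fun u => saw N (b u + s))
    (fun u => saw N (a u + b u + t)) (fun u => saw N' (a' u + r')) (fun u => saw N' (b' u + s'))
    (fun u => saw N' (a' u + b' u + t')) σ σ' hσ hσ' hν hν'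
    (one a r hKN i1) (one b s hKN i2) (one (fun u => a u + b u) t hKN i3)
    (sqb a r hKN i1) (sqb b s hKN i2) (sqb (fun u => a u + b u) t hKN i3)
    (two a b r s hKN hKN fun m m' hm _ => H m m' (Or.inl hm))
    (two a (fun u => a u + b u) r t hKN hKN i4) (two b (fun u => a u + b u) s t hKN hKN i5)
    (one a' r' hKN' j1) (one b' s' hKN' j2) (one (fun u => a' u + b' u) t' hKN' j3)
    (sqb a' r' hKN' j1) (sqb b' s' hKN' j2) (sqb (fun u => a' u + b' u) t' hKN' j3)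
    (two a' b' r' s' hKN' hKN' fun m m' hm _ => H' m m' (Or.inl hm))
    (two a' (fun u => a' u + b' u) r' t' hKN' hKN' j4)
    (two b' (fun u => a' u + b' u) s' t' hKN' hKN' j5)
    (two a a' r r' hKN hKN' Haa) (two a b' r s' hKN hKN' Hab) (two b a' s r' hKN hKN' Hba)
    (two b b' s s' hKN hKN' Hbb)

end Pool.Agent.Work.MP_9bdca2_co
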