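import Mathlib
import Pool.Agent.Work.MP_9bdca2_co.CharSums2
import Pool.Agent.Work.MP_9bdca2_co.Log
import Pool.Agent.Work.MP_9bdca2_co.Master
import Pool.Agent.Work.MP_9bdca2_co.Growth

/-!
# Golomb type constructions in odd characteristic: existence of a bad point
-/

set_option autoImplicit false
set_option linter.unusedSectionVars false

namespace Pool.Agent.Work.MP_9bdca2_co

open Finset ComplexConjugate

variable {F : Type*} [Field F] [Fintype F] [DecidableEq F]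

/-- The parameter set. -/
def Om (F : Type*) [Field F] [Fintype F] [DecidableEq F] : Finset F :=
  univ \ {0, 1, -1}

theorem mem_Om {u : F} : u ∈ Om F ↔ u ≠ 0 ∧ u ≠ 1 ∧ u ≠ -1 := by
  unfold Om
  simp

theorem card_Om : (Fintype.card F : ℝ) - 3 ≤ ((Om F).card : ℝ) := by
  have h1 : Fintype.card F ≤ (Om F).card + 3 := by
    have := Finset.card_le_card_sdiff_add_card (s := univ) (t := ({0, 1, -1} : Finset F))
    have h3 : ({0, 1, -1} : Finset F).card ≤ 3 := Finset.card_le_three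
    unfold Om
    rw [card_univ] at this
    omega
  have : (Fintype.card F : ℝ) ≤ (Om F).card + 3 := by exact_mod_cast h1
  linarith

theorem sum_Om_le (f : F → ℂ) (hf : ∀ u, ‖f u‖ ≤ 1) :
    ‖∑ u ∈ Om F, f u‖ ≤ ‖∑ u : F, f u‖ + 3 := by
  have h1 : ∑ u ∈ Om F, f u = ∑ u : F, f u - ∑ u ∈ ({0, 1, -1} : Finset F), f u := by
    unfold Om
    rw [eq_sub_iff_add_eq, Finset.sum_sdiff (subset_univ _)]
  rw [h1]
  refine (norm_sub_le _ _).trans ?_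
  have h2 := norm_sum_le_card ({0, 1, -1} : Finset F) f (fun i _ => hf i)
  have h3 : ((({0, 1, -1} : Finset F).card : ℕ) : ℝ) ≤ 3 := by exact_mod_cast Finset.card_le_three
  linarith

theorem sum_Om_neg (f : F → ℂ) : ∑ u ∈ Om F, f (-u) = ∑ u ∈ Om F, f u := by
  refine Finset.sum_bij' (fun u _ => -u) (fun u _ => -u) ?_ ?_ ?_ ?_ ?_
  · intro u hu
    obtain ⟨h1, h2, h3⟩ := mem_Om.1 hu
    refine mem_Om.2 ⟨neg_ne_zero.2 h1, fun h => h3 ?_, fun h => h2 ?_⟩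
    · rw [← h, neg_neg]
    · exact neg_inj.1 h
  · intro u hu
    obtain ⟨h1, h2, h3⟩ := mem_Om.1 hu
    refine mem_Om.2 ⟨neg_ne_zero.2 h1, fun h => h3 ?_, fun h => h2 ?_⟩
    · rw [← h, neg_neg]
    · exact neg_inj.1 h
  · intro u _; exact neg_neg u
  · intro u _; exact neg_neg u
  · intro u _; rfl

theorem sum_Om_inv (f : F → ℂ) : ∑ u ∈ Om F, f u⁻¹ = ∑ u ∈ Om F, f u := by
  refine Finset.sum_bij' (fun u _ => u⁻¹) (fun u _ => u⁻¹) ?_ ?_ ?_ ?_ ?_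
  · intro u hu
    obtain ⟨h1, h2, h3⟩ := mem_Om.1 hu
    refine mem_Om.2 ⟨inv_ne_zero h1, fun h => h2 ?_, fun h => h3 ?_⟩
    · rw [← inv_inv u, h, inv_one]
    · rw [← inv_inv u, h, inv_neg, inv_one]
  · intro u hu
    obtain ⟨h1, h2, h3⟩ := mem_Om.1 hu
    refine mem_Om.2 ⟨inv_ne_zero h1, fun h => h2 ?_, fun h => h3 ?_⟩
    · rw [← inv_inv u, h, inv_one]
    · rw [← inv_inv u, h, inv_neg, inv_one]
  · intro u _; exact inv_inv u
  · intro u _; exact inv_inv u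
  · intro u _; rfl

theorem one_add_ne {u : F} (hu : u ∈ Om F) : 1 + u ≠ 0 := by
  intro h
  exact (mem_Om.1 hu).2.2 (eq_neg_of_add_eq_zero_right h)

theorem one_sub_ne {u : F} (hu : u ∈ Om F) : 1 - u ≠ 0 :=
  sub_ne_zero.2 (Ne.symm (mem_Om.1 hu).2.1)

theorem sum_H (h2 : (2 : F) ≠ 0) {χ ψ : MulChar F ℂ} (h : χ ≠ 1 ∨ ψ ≠ 1) :
    ‖∑ u ∈ Om F, χ (1 + u)⁻¹ * ψ (1 - u)⁻¹‖ ≤ 2 * (Fintype.card F : ℝ) ^ (3 / 4 : ℝ) + 3 := by
  refine (sum_Om_le _ fun u => norm_mul_le_one (norm_mulChar_le _ _) (norm_mulChar_le _ _)).trans ?_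
  have h1 : ∑ u : F, χ (1 + u)⁻¹ * ψ (1 - u)⁻¹ =
      χ⁻¹ 2 * ψ⁻¹ 2 * ∑ x : F, χ⁻¹ x * ψ⁻¹ (1 - x) := by
    have h3 : ∑ u : F, χ (1 + u)⁻¹ * ψ (1 - u)⁻¹ =
        ∑ x : F, χ (1 + (2 * x - 1))⁻¹ * ψ (1 - (2 * x - 1))⁻¹ := by
      refine (Function.Bijective.sum_comp (Function.bijective_iff_has_inverse.2
        ⟨fun y => (y + 1) / 2, fun x => ?_, fun y => ?_⟩)
        (fun u => χ (1 + u)⁻¹ * ψ (1 - u)⁻¹)).symm
      · field_simp
        ring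
      · field_simp
        ring
    rw [h3, mul_sum]
    refine sum_congr rfl fun x _ => ?_
    rw [← MulChar.inv_apply', ← MulChar.inv_apply',
      show 1 + (2 * x - 1) = 2 * x by ring, show 1 - (2 * x - 1) = 2 * (1 - x) by ring,
      map_mul, map_mul]
    ring
  rw [h1, norm_mul, norm_mul, norm_mulChar h2, norm_mulChar h2, one_mul, one_mul]
  have h4 := norm_jacobi_le (χ := χ⁻¹) (ψ := ψ⁻¹)
    (h.imp (fun h => inv_ne_one.2 h) (fun h => inv_ne_one.2 h))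
  have h5 := sqrt_le_rpow (card_ge_one F)
  linarith

theorem sum_H' (h2 : (2 : F) ≠ 0) {χ ψ : MulChar F ℂ} (h : χ ≠ 1 ∨ ψ ≠ 1) :
    ‖∑ u ∈ Om F, χ (u / (1 + u)) * ψ (-u / (1 - u))‖ ≤
      2 * (Fintype.card F : ℝ) ^ (3 / 4 : ℝ) + 3 := by
  rw [← sum_Om_inv]
  have h1 : ∑ u ∈ Om F, χ (u⁻¹ / (1 + u⁻¹)) * ψ (-u⁻¹ / (1 - u⁻¹)) =
      ∑ u ∈ Om F, χ (1 + u)⁻¹ * ψ (1 - u)⁻¹ := by
    refine sum_congr rfl fun u hu => ?_
    have h0 := (mem_Om.1 hu).1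
    have h3 := one_add_ne hu
    have h4 := one_sub_ne hu
    have h5 : u⁻¹ / (1 + u⁻¹) = (1 + u)⁻¹ := by
      have : 1 + u⁻¹ = (1 + u) / u := by field_simp; ring
      rw [this, inv_div_left]
      field_simp
    have h6 : -u⁻¹ / (1 - u⁻¹) = (1 - u)⁻¹ := by
      have : 1 - u⁻¹ = -(1 - u) / u := by field_simp; ring
      rw [this]
      field_simp
    rw [h5, h6]
  rw [h1]
  exact sum_H h2 h

theorem sum_Haa (χ : MulChar F ℂ) {ψ : MulChar F ℂ} (h : ψ ≠ 1) :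
    ‖∑ u ∈ Om F, χ (1 + u)⁻¹ * ψ (u / (1 + u))‖ ≤ 2 * (Fintype.card F : ℝ) ^ (3 / 4 : ℝ) + 3 := by
  refine (sum_Om_le _ fun u => norm_mul_le_one (norm_mulChar_le _ _) (norm_mulChar_le _ _)).trans ?_
  have h1 : ∑ u : F, χ (1 + u)⁻¹ * ψ (u / (1 + u)) =
      ψ (-1) * ∑ x : F, ψ x * (χ⁻¹ * ψ⁻¹) (1 - x) := by
    have h3 : ∑ u : F, χ (1 + u)⁻¹ * ψ (u / (1 + u)) =
        ∑ x : F, χ (1 + -x)⁻¹ * ψ (-x / (1 + -x)) :=
      (Equiv.sum_comp (Equiv.neg F) (fun u => χ (1 + u)⁻¹ * ψ (u / (1 + u)))).symm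
    rw [h3, mul_sum]
    refine sum_congr rfl fun x _ => ?_
    rw [div_eq_mul_inv, map_mul, ← MulChar.inv_apply', ← MulChar.inv_apply',
      show 1 + -x = 1 - x by ring, show -x = -1 * x by ring, map_mul, MulChar.mul_apply]
    ring
  rw [h1, norm_mul, norm_mulChar (by simp), one_mul]
  have h4 := norm_jacobi_le (χ := ψ) (ψ := χ⁻¹ * ψ⁻¹) (Or.inl h)
  have h5 := sqrt_le_rpow (card_ge_one F)
  linarith

theorem sum_Hbb (χ : MulChar F ℂ) {ψ : MulChar F ℂ} (h : ψ ≠ 1) :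
    ‖∑ u ∈ Om F, χ (1 - u)⁻¹ * ψ (-u / (1 - u))‖ ≤ 2 * (Fintype.card F : ℝ) ^ (3 / 4 : ℝ) + 3 := by
  have h1 : ∑ u ∈ Om F, χ (1 - u)⁻¹ * ψ (-u / (1 - u)) =
      ∑ u ∈ Om F, χ (1 + u)⁻¹ * ψ (u / (1 + u)) := by
    rw [← sum_Om_neg (fun u => χ (1 + u)⁻¹ * ψ (u / (1 + u)))]
    refine sum_congr rfl fun u _ => ?_
    rw [← sub_eq_add_neg]
  rw [h1]
  exact sum_Haa χ h

theorem sum_Hab (h2 : (2 : F) ≠ 0) (χ : MulChar F ℂ) {ψ : MulChar F ℂ} (h : ψ ≠ 1) :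
    ‖∑ u ∈ Om F, χ (1 + u)⁻¹ * ψ (-u / (1 - u))‖ ≤ 2 * (Fintype.card F : ℝ) ^ (3 / 4 : ℝ) + 3 := by
  refine (sum_Om_le _ fun u => norm_mul_le_one (norm_mulChar_le _ _) (norm_mulChar_le _ _)).trans ?_
  have h1 : ∑ u : F, χ (1 + u)⁻¹ * ψ (-u / (1 - u)) =
      ψ (-1) * ∑ w : F, χ⁻¹ w * (ψ (w - 1) * ψ⁻¹ (2 - w)) := by
    have h3 : ∑ u : F, χ (1 + u)⁻¹ * ψ (-u / (1 - u)) =
        ∑ w : F, χ (1 + (w - 1))⁻¹ * ψ (-(w - 1) / (1 - (w - 1))) :=
      (Equiv.sum_comp (Equiv.subRight (1 : F)) (fun u => χ (1 + u)⁻¹ * ψ (-u / (1 - u)))).symm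
    rw [h3, mul_sum]
    refine sum_congr rfl fun w _ => ?_
    rw [div_eq_mul_inv, map_mul, ← MulChar.inv_apply', ← MulChar.inv_apply',
      show 1 + (w - 1) = w by ring, show 1 - (w - 1) = 2 - w by ring,
      show -(w - 1) = -1 * (w - 1) by ring, map_mul]
    ring
  rw [h1, norm_mul, norm_mulChar (by simp), one_mul]
  have h4 := le_of_pow_four (Nat.cast_nonneg _) (norm_K_le h2 χ⁻¹ h)
  linarith

theorem sum_Hba (h2 : (2 : F) ≠ 0) (χ : MulChar F ℂ) {ψ : MulChar F ℂ} (h : ψ ≠ 1) :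
    ‖∑ u ∈ Om F, χ (1 - u)⁻¹ * ψ (u / (1 + u))‖ ≤ 2 * (Fintype.card F : ℝ) ^ (3 / 4 : ℝ) + 3 := by
  have h1 : ∑ u ∈ Om F, χ (1 - u)⁻¹ * ψ (u / (1 + u)) =
      ∑ u ∈ Om F, χ (1 + u)⁻¹ * ψ (-u / (1 - u)) := by
    rw [← sum_Om_neg (fun u => χ (1 + u)⁻¹ * ψ (-u / (1 - u)))]
    refine sum_congr rfl fun u _ => ?_
    rw [← sub_eq_add_neg, neg_neg, sub_neg_eq_add]
  rw [h1]
  exact sum_Hab h2 χ h

/-- Existence of a bad point for Golomb type constructions in odd characteristic. -/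
theorem golomb_odd : ∃ Q : ℕ, 4 ≤ Q ∧ ∀ (F : Type) [Field F] [Fintype F] [DecidableEq F],
    Q ≤ Fintype.card F → (2 : F) ≠ 0 → ∀ α β : F, PrimElt α → PrimElt β →
    ∀ t t' : ZMod (Fintype.card F - 1), ∃ u : F, u ≠ 0 ∧ 1 + u ≠ 0 ∧ 1 - u ≠ 0 ∧
      (dlog α (1 + u)⁻¹ + t).val + (dlog α (1 - u)⁻¹ + t).val =
        (dlog α (1 + u)⁻¹ + dlog α (1 - u)⁻¹ + t).val + t.val ∧
      (dlog β (u / (1 + u)) + t').val + (dlog β (-u / (1 - u)) + t').val =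
        (dlog β (u / (1 + u)) + dlog β (-u / (1 - u)) + t').val + t'.val := by
  obtain ⟨Q, hQ⟩ := growth
  refine ⟨Q + 4, by omega, ?_⟩
  intro F _ _ _ hcard h2 α β hα hβ t t'
  have hQq : Q ≤ Fintype.card F := by omega
  have hne : NeZero (Fintype.card F - 1) := ⟨by omega⟩
  have hg := hQ (Fintype.card F) hQq
  have hcardOm := card_Om (F := F)
  have hq4 : (4 : ℝ) ≤ (Fintype.card F : ℝ) := by
    have : 4 ≤ Fintype.card F := by omega
    exact_mod_cast this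
  have hOm : (Om F).Nonempty := by
    rw [← Finset.card_pos]
    have : (0 : ℝ) < (Om F).card := by linarith
    exact_mod_cast this
  have hlog : 0 ≤ Real.log (Fintype.card F) := Real.log_nonneg (by linarith)
  have hB : (0 : ℝ) ≤ 2 * (Fintype.card F : ℝ) ^ (3 / 4 : ℝ) + 3 := by positivity
  have hK : Lsaw (Fintype.card F - 1) ≤ 1 + Real.log (Fintype.card F) := by
    have h1 := Lsaw_le (Fintype.card F - 1)
    have h3 : Real.log ((Fintype.card F - 1 : ℕ) : ℝ) ≤ Real.log (Fintype.card F) := by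
      apply Real.log_le_log
      · have : 0 < Fintype.card F - 1 := by omega
        exact_mod_cast this
      · exact_mod_cast Nat.sub_le (Fintype.card F) 1
    linarith
  have mc : ∀ (γ : F) (hγ : PrimElt γ) (m : ZMod (Fintype.card F - 1)) {x : F}, x ≠ 0 →
      (ZMod.stdAddChar (m * dlog γ x) : ℂ) = mchar hγ m x := fun γ hγ m x hx =>
    (mchar_apply hγ m hx).symm
  have ne1 : ∀ (γ : F) (hγ : PrimElt γ) (m : ZMod (Fintype.card F - 1)), m ≠ 0 → mchar hγ m ≠ 1 :=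
    fun γ hγ m hm => mchar_ne_one hγ hm
  obtain ⟨u, hu, hu1, hu2⟩ := master (Om F) hOm (N := Fintype.card F - 1) (N' := Fintype.card F - 1)
    (fun u => dlog α (1 + u)⁻¹) (fun u => dlog α (1 - u)⁻¹)
    (fun u => dlog β (u / (1 + u))) (fun u => dlog β (-u / (1 - u)))
    (2 * (Fintype.card F : ℝ) ^ (3 / 4 : ℝ) + 3) (1 + Real.log (Fintype.card F)) hB (by linarith) hK hK
    (le_trans hg (by linarith))
    (fun m n hmn => by
      rw [sum_congr rfl fun u hu => by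
        rw [mc α hα m (inv_ne_zero (one_add_ne hu)), mc α hα n (inv_ne_zero (one_sub_ne hu))]]
      exact sum_H h2 (hmn.imp (ne1 α hα m) (ne1 α hα n)))
    (fun m n hmn => by
      rw [sum_congr rfl fun u hu => by
        rw [mc β hβ m (div_ne_zero (mem_Om.1 hu).1 (one_add_ne hu)),
          mc β hβ n (div_ne_zero (neg_ne_zero.2 (mem_Om.1 hu).1) (one_sub_ne hu))]]
      exact sum_H' h2 (hmn.imp (ne1 β hβ m) (ne1 β hβ n)))
    (fun m m' _ hm' => by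
      rw [sum_congr rfl fun u hu => by
        rw [mc α hα m (inv_ne_zero (one_add_ne hu)),
          mc β hβ m' (div_ne_zero (mem_Om.1 hu).1 (one_add_ne hu))]]
      exact sum_Haa _ (ne1 β hβ m' hm'))
    (fun m m' _ hm' => by
      rw [sum_congr rfl fun u hu => by
        rw [mc α hα m (inv_ne_zero (one_add_ne hu)),
          mc β hβ m' (div_ne_zero (neg_ne_zero.2 (mem_Om.1 hu).1) (one_sub_ne hu))]]
      exact sum_Hab h2 _ (ne1 β hβ m' hm'))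
    (fun m m' _ hm' => by
      rw [sum_congr rfl fun u hu => by
        rw [mc α hα m (inv_ne_zero (one_sub_ne hu)),
          mc β hβ m' (div_ne_zero (mem_Om.1 hu).1 (one_add_ne hu))]]
      exact sum_Hba h2 _ (ne1 β hβ m' hm'))
    (fun m m' _ hm' => by
      rw [sum_congr rfl fun u hu => by
        rw [mc α hα m (inv_ne_zero (one_sub_ne hu)),
          mc β hβ m' (div_ne_zero (neg_ne_zero.2 (mem_Om.1 hu).1) (one_sub_ne hu))]]
      exact sum_Hbb _ (ne1 β hβ m' hm'))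
    t t t t' t' t' (saw (Fintype.card F - 1) t) (saw (Fintype.card F - 1) t')
    (le_trans (abs_saw_le _ _) (by norm_num)) (le_trans (abs_saw_le _ _) (by norm_num))
    (fun u _ => (carry _ _ t).1) (fun u _ => (carry _ _ t').1)
  exact ⟨u, (mem_Om.1 hu).1, one_add_ne hu, one_sub_ne hu, (carry _ _ t).2 hu1,
    (carry _ _ t').2 hu2⟩

end Pool.Agent.Work.MP_9bdca2_co
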