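import Mathlib
import Pool.Agent.Work.MP_9bdca2_co.Golomb

/-!
# Golomb type constructions: a uniform statement, including characteristic two
-/

set_option autoImplicit false
set_option linter.unusedSectionVars false

namespace Pool.Agent.Work.MP_9bdca2_co

open Finset ComplexConjugate

theorem val_sub_nat {N : ℕ} [NeZero N] (x : ZMod N) (l : ℕ) (hl : l ≤ N) :
    (x - (l : ZMod N)).val = if l ≤ x.val then x.val - l else x.val + N - l := by
  have hx := ZMod.val_lt x
  split_ifs with h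
  · have h1 : x - (l : ZMod N) = ((x.val - l : ℕ) : ZMod N) := by
      rw [Nat.cast_sub h, ZMod.natCast_zmod_val]
    rw [h1, ZMod.val_cast_of_lt (by omega)]
  · have h1 : x - (l : ZMod N) = ((x.val + N - l : ℕ) : ZMod N) := by
      rw [Nat.cast_sub (by omega), Nat.cast_add, ZMod.natCast_zmod_val, ZMod.natCast_self, add_zero]
    rw [h1, ZMod.val_cast_of_lt (by omega)]

/-- The indicator function of an interval in terms of the sawtooth. -/
theorem saw_interval {N : ℕ} [NeZero N] (x : ZMod N) (l r : ℕ) (hlr : l ≤ r) (hr : r ≤ N) :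
    saw N (x - (r : ZMod N)) - saw N (x - (l : ZMod N)) + ((r : ℝ) - l) / N =
      if l ≤ x.val ∧ x.val < r then 1 else 0 := by
  have hN : (0 : ℝ) < N := Nat.cast_pos.2 (NeZero.pos N)
  have hx := ZMod.val_lt x
  unfold saw
  rw [val_sub_nat x l (hlr.trans hr), val_sub_nat x r hr]
  by_cases h1 : l ≤ x.val
  · by_cases h2 : r ≤ x.val
    · rw [if_pos h1, if_pos h2, if_neg (by omega), Nat.cast_sub h1, Nat.cast_sub h2]
      field_simp
      ring
    · rw [if_pos h1, if_neg h2, if_pos (by omega), Nat.cast_sub h1, Nat.cast_sub (by omega)]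
      push_cast
      field_simp
      ring
  · rw [if_neg h1, if_neg (by omega), if_neg (by omega), Nat.cast_sub (by omega),
      Nat.cast_sub (by omega)]
    push_cast
    field_simp
    ring

/-- Carry-free doubling. -/
theorem doubling {N : ℕ} [NeZero N] (a t : ZMod N)
    (h1 : (t.val + 1) / 2 ≤ (a + t).val) (h2 : (a + t).val < (N + t.val + 1) / 2) :
    (a + t).val + (a + t).val = (a + a + t).val + t.val := by
  have ht := ZMod.val_lt t
  have h3 : a + a + t = (((a + t).val + (a + t).val - t.val : ℕ) : ZMod N) := by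
    rw [Nat.cast_sub (by omega), Nat.cast_add, ZMod.natCast_zmod_val, ZMod.natCast_zmod_val]
    ring
  have h4 : (a + a + t).val = (a + t).val + (a + t).val - t.val := by
    rw [h3, ZMod.val_cast_of_lt (by omega)]
  omega

variable {F : Type*} [Field F] [Fintype F] [DecidableEq F]

/-- The parameter set. -/
def Oe (F : Type*) [Field F] [Fintype F] [DecidableEq F] : Finset F :=
  univ \ {0, 1}

theorem mem_Oe {u : F} : u ∈ Oe F ↔ u ≠ 0 ∧ u ≠ 1 := by
  unfold Oe
  simp

theorem card_Oe : (Fintype.card F : ℝ) - 3 ≤ ((Oe F).card : ℝ) := by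
  have h1 : Fintype.card F ≤ (Oe F).card + 3 := by
    have := Finset.card_le_card_sdiff_add_card (s := univ) (t := ({0, 1} : Finset F))
    have h3 : ({0, 1} : Finset F).card ≤ 2 := Finset.card_le_two
    unfold Oe
    rw [card_univ] at this
    omega
  have : (Fintype.card F : ℝ) ≤ (Oe F).card + 3 := by exact_mod_cast h1
  linarith

theorem sum_Oe_le (f : F → ℂ) (hf : ∀ u, ‖f u‖ ≤ 1) :
    ‖∑ u ∈ Oe F, f u‖ ≤ ‖∑ u : F, f u‖ + 3 := by
  have h1 : ∑ u ∈ Oe F, f u = ∑ u : F, f u - ∑ u ∈ ({0, 1} : Finset F), f u := by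
    unfold Oe
    rw [eq_sub_iff_add_eq, Finset.sum_sdiff (subset_univ _)]
  rw [h1]
  refine (norm_sub_le _ _).trans ?_
  have h2 := norm_sum_le_card ({0, 1} : Finset F) f (fun i _ => hf i)
  have h3 : ((({0, 1} : Finset F).card : ℕ) : ℝ) ≤ 2 := by exact_mod_cast Finset.card_le_two
  linarith

theorem sum_He {χ ψ : MulChar F ℂ} (h : χ ≠ 1 ∨ ψ ≠ 1) :
    ‖∑ u ∈ Oe F, χ u * ψ (1 - u)‖ ≤ 2 * (Fintype.card F : ℝ) ^ (3 / 4 : ℝ) + 3 := by
  refine (sum_Oe_le _ fun u => norm_mul_le_one (norm_mulChar_le _ _) (norm_mulChar_le _ _)).trans ?_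
  have h4 := norm_jacobi_le h
  have h5 := sqrt_le_rpow (card_ge_one F)
  linarith

/-- Existence of a pair `X, 1 - X` with both doublings carry-free. -/
theorem golomb_even : ∃ Q : ℕ, 4 ≤ Q ∧ ∀ (F : Type) [Field F] [Fintype F] [DecidableEq F],
    Q ≤ Fintype.card F → ∀ α β : F, PrimElt α → PrimElt β →
    ∀ t t' : ZMod (Fintype.card F - 1), ∃ X : F, X ≠ 0 ∧ X ≠ 1 ∧
      (dlog α X + t).val + (dlog α X + t).val =
        (dlog α X + dlog α X + t).val + t.val ∧
      (dlog β (1 - X) + t').val + (dlog β (1 - X) + t').val =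
        (dlog β (1 - X) + dlog β (1 - X) + t').val + t'.val := by
  obtain ⟨Q, hQ⟩ := growth
  refine ⟨Q + 10, by omega, ?_⟩
  intro F _ _ _ hcard α β hα hβ t t'
  have hQq : Q ≤ Fintype.card F := by omega
  have hne : NeZero (Fintype.card F - 1) := ⟨by omega⟩
  have hg := hQ (Fintype.card F) hQq
  have hcardOe := card_Oe (F := F)
  have hq4 : (10 : ℝ) ≤ (Fintype.card F : ℝ) := by
    have : 10 ≤ Fintype.card F := by omega
    exact_mod_cast this
  have hM : (0 : ℝ) < (Oe F).card := by linarith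
  have hlog : 0 ≤ Real.log (Fintype.card F) := Real.log_nonneg (by linarith)
  have hB : (0 : ℝ) ≤ 2 * (Fintype.card F : ℝ) ^ (3 / 4 : ℝ) + 3 := by positivity
  have hK : Lsaw (Fintype.card F - 1) ≤ 1 + Real.log (Fintype.card F) := by
    have h1 := Lsaw_le (Fintype.card F - 1)
    have h3 : Real.log ((Fintype.card F - 1 : ℕ) : ℝ) ≤ Real.log (Fintype.card F) := by
      apply Real.log_le_log
      · have : 0 < (Fintype.card F - 1) := by omega
        exact_mod_cast this
      · exact_mod_cast Nat.sub_le (Fintype.card F) 1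
    linarith
  have hNr : (9 : ℝ) ≤ ((Fintype.card F - 1 : ℕ) : ℝ) := by
    have : 9 ≤ (Fintype.card F - 1) := by omega
    exact_mod_cast this
  have hNpos : (0 : ℝ) < ((Fintype.card F - 1 : ℕ) : ℝ) := by linarith
  have mc : ∀ (γ : F) (hγ : PrimElt γ) (m : ZMod (Fintype.card F - 1)) {x : F}, x ≠ 0 →
      (ZMod.stdAddChar (m * dlog γ x) : ℂ) = mchar hγ m x := fun γ hγ m x hx =>
    (mchar_apply hγ m hx).symm
  have ne1 : ∀ (γ : F) (hγ : PrimElt γ) (m : ZMod (Fintype.card F - 1)), m ≠ 0 → mchar hγ m ≠ 1 :=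
    fun γ hγ m hm => mchar_ne_one hγ hm
  have hX1 : ∀ {X : F}, X ∈ Oe F → 1 - X ≠ 0 := fun hX => sub_ne_zero.2 (Ne.symm (mem_Oe.1 hX).2)
  set K := 1 + Real.log (Fintype.card F) with hKdef
  set B := 2 * (Fintype.card F : ℝ) ^ (3 / 4 : ℝ) + 3 with hBdef
  have hL0 := Lsaw_nonneg (Fintype.card F - 1)
  have hBK : K * K * B ≤ ((Oe F).card : ℝ) / 4000 := le_trans hg (by linarith)
  have hLB : Lsaw (Fintype.card F - 1) * B ≤ ((Oe F).card : ℝ) / 4000 := by
    refine le_trans ?_ hBK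
    apply mul_le_mul_of_nonneg_right _ hB
    nlinarith
  have hLLB : Lsaw (Fintype.card F - 1) * Lsaw (Fintype.card F - 1) * B ≤ ((Oe F).card : ℝ) / 4000 := by
    refine le_trans ?_ hBK
    apply mul_le_mul_of_nonneg_right _ hB
    exact mul_le_mul hK hK hL0 (by linarith)
  -- single sums
  have s1 : ∀ r : ZMod (Fintype.card F - 1), |∑ X ∈ Oe F, saw (Fintype.card F - 1) (dlog α X + r)| ≤ ((Oe F).card : ℝ) / 4000 := by
    intro r
    refine (sum_saw_le (Oe F) (fun X => dlog α X) r (B := B) fun m hm => ?_).trans hLB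
    have h1 : ∑ X ∈ Oe F, (ZMod.stdAddChar (m * dlog α X) : ℂ) =
        ∑ X ∈ Oe F, mchar hα m X * (1 : MulChar F ℂ) (1 - X) := by
      refine sum_congr rfl fun X hX => ?_
      rw [mc α hα m (mem_Oe.1 hX).1, MulChar.one_apply (hX1 hX).isUnit, mul_one]
    rw [h1]
    exact sum_He (Or.inl (ne1 α hα m hm))
  have s2 : ∀ r : ZMod (Fintype.card F - 1), |∑ X ∈ Oe F, saw (Fintype.card F - 1) (dlog β (1 - X) + r)| ≤
      ((Oe F).card : ℝ) / 4000 := by
    intro r
    refine (sum_saw_le (Oe F) (fun X => dlog β (1 - X)) r (B := B) fun m hm => ?_).trans hLB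
    have h1 : ∑ X ∈ Oe F, (ZMod.stdAddChar (m * dlog β (1 - X)) : ℂ) =
        ∑ X ∈ Oe F, (1 : MulChar F ℂ) X * mchar hβ m (1 - X) := by
      refine sum_congr rfl fun X hX => ?_
      rw [mc β hβ m (hX1 hX), MulChar.one_apply (mem_Oe.1 hX).1.isUnit, one_mul]
    rw [h1]
    exact sum_He (Or.inr (ne1 β hβ m hm))
  have s3 : ∀ r r' : ZMod (Fintype.card F - 1), |∑ X ∈ Oe F, saw (Fintype.card F - 1) (dlog α X + r) * saw (Fintype.card F - 1) (dlog β (1 - X) + r')| ≤
      ((Oe F).card : ℝ) / 4000 := by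
    intro r r'
    refine (sum_saw_mul_le (Oe F) (fun X => dlog α X) (fun X => dlog β (1 - X)) r r' (B := B)
      fun m m' hm _ => ?_).trans hLLB
    have h1 : ∑ X ∈ Oe F, (ZMod.stdAddChar (m * dlog α X) : ℂ) *
        ZMod.stdAddChar (m' * dlog β (1 - X)) =
        ∑ X ∈ Oe F, mchar hα m X * mchar hβ m' (1 - X) := by
      refine sum_congr rfl fun X hX => ?_
      rw [mc α hα m (mem_Oe.1 hX).1, mc β hβ m' (hX1 hX)]
    rw [h1]
    exact sum_He (Or.inl (ne1 α hα m hm))
  -- the intervals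
  set l := (t.val + 1) / 2 with hl
  set r := ((Fintype.card F - 1) + t.val + 1) / 2 with hr
  set l' := (t'.val + 1) / 2 with hl'
  set r' := ((Fintype.card F - 1) + t'.val + 1) / 2 with hr'
  have ht := ZMod.val_lt t
  have ht' := ZMod.val_lt t'
  by_contra hcon
  push Not at hcon
  have hz : ∀ X ∈ Oe F,
      (saw (Fintype.card F - 1) (dlog α X + (t - (r : ZMod (Fintype.card F - 1)))) - saw (Fintype.card F - 1) (dlog α X + (t - (l : ZMod (Fintype.card F - 1)))) +
        ((r : ℝ) - l) / ((Fintype.card F - 1 : ℕ) : ℝ)) *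
      (saw (Fintype.card F - 1) (dlog β (1 - X) + (t' - (r' : ZMod (Fintype.card F - 1)))) -
        saw (Fintype.card F - 1) (dlog β (1 - X) + (t' - (l' : ZMod (Fintype.card F - 1)))) + ((r' : ℝ) - l') / ((Fintype.card F - 1 : ℕ) : ℝ)) = 0 := by
    intro X hX
    rw [← add_sub_assoc, ← add_sub_assoc, ← add_sub_assoc, ← add_sub_assoc,
      saw_interval (dlog α X + t) l r (by omega) (by omega),
      saw_interval (dlog β (1 - X) + t') l' r' (by omega) (by omega)]
    by_cases h1 : l ≤ (dlog α X + t).val ∧ (dlog α X + t).val < r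
    · have h2 : ¬ (l' ≤ (dlog β (1 - X) + t').val ∧ (dlog β (1 - X) + t').val < r') := by
        intro h3
        exact hcon X (mem_Oe.1 hX).1 (mem_Oe.1 hX).2 (doubling _ _ h1.1 h1.2)
          (doubling _ _ h3.1 h3.2)
      rw [if_neg h2, mul_zero]
    · rw [if_neg h1, zero_mul]
  have hsum := sum_congr rfl hz
  rw [sum_const_zero] at hsum
  set lam := ((r : ℝ) - l) / ((Fintype.card F - 1 : ℕ) : ℝ) with hlam
  set lam' := ((r' : ℝ) - l') / ((Fintype.card F - 1 : ℕ) : ℝ) with hlam'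
  have hexp : ∑ X ∈ Oe F,
      (saw (Fintype.card F - 1) (dlog α X + (t - (r : ZMod (Fintype.card F - 1)))) - saw (Fintype.card F - 1) (dlog α X + (t - (l : ZMod (Fintype.card F - 1)))) + lam) *
      (saw (Fintype.card F - 1) (dlog β (1 - X) + (t' - (r' : ZMod (Fintype.card F - 1)))) -
        saw (Fintype.card F - 1) (dlog β (1 - X) + (t' - (l' : ZMod (Fintype.card F - 1)))) + lam') =
      (∑ X ∈ Oe F, saw (Fintype.card F - 1) (dlog α X + (t - (r : ZMod (Fintype.card F - 1)))) *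
          saw (Fintype.card F - 1) (dlog β (1 - X) + (t' - (r' : ZMod (Fintype.card F - 1))))) -
      (∑ X ∈ Oe F, saw (Fintype.card F - 1) (dlog α X + (t - (r : ZMod (Fintype.card F - 1)))) *
          saw (Fintype.card F - 1) (dlog β (1 - X) + (t' - (l' : ZMod (Fintype.card F - 1))))) -
      (∑ X ∈ Oe F, saw (Fintype.card F - 1) (dlog α X + (t - (l : ZMod (Fintype.card F - 1)))) *
          saw (Fintype.card F - 1) (dlog β (1 - X) + (t' - (r' : ZMod (Fintype.card F - 1))))) +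
      (∑ X ∈ Oe F, saw (Fintype.card F - 1) (dlog α X + (t - (l : ZMod (Fintype.card F - 1)))) *
          saw (Fintype.card F - 1) (dlog β (1 - X) + (t' - (l' : ZMod (Fintype.card F - 1))))) +
      lam' * ((∑ X ∈ Oe F, saw (Fintype.card F - 1) (dlog α X + (t - (r : ZMod (Fintype.card F - 1))))) -
        (∑ X ∈ Oe F, saw (Fintype.card F - 1) (dlog α X + (t - (l : ZMod (Fintype.card F - 1)))))) +
      lam * ((∑ X ∈ Oe F, saw (Fintype.card F - 1) (dlog β (1 - X) + (t' - (r' : ZMod (Fintype.card F - 1))))) -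
        (∑ X ∈ Oe F, saw (Fintype.card F - 1) (dlog β (1 - X) + (t' - (l' : ZMod (Fintype.card F - 1)))))) +
      ((Oe F).card : ℝ) * (lam * lam') := by
    have hc : ((Oe F).card : ℝ) = ∑ X ∈ Oe F, (1 : ℝ) := by simp
    rw [hc]
    simp only [mul_sum, sum_mul, ← sum_add_distrib, ← sum_sub_distrib]
    refine sum_congr rfl fun X _ => ?_
    ring
  rw [hexp] at hsum
  have a1 := s3 (t - (r : ZMod (Fintype.card F - 1))) (t' - (r' : ZMod (Fintype.card F - 1)))
  have a2 := s3 (t - (r : ZMod (Fintype.card F - 1))) (t' - (l' : ZMod (Fintype.card F - 1)))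
  have a3 := s3 (t - (l : ZMod (Fintype.card F - 1))) (t' - (r' : ZMod (Fintype.card F - 1)))
  have a4 := s3 (t - (l : ZMod (Fintype.card F - 1))) (t' - (l' : ZMod (Fintype.card F - 1)))
  have a5 := s1 (t - (r : ZMod (Fintype.card F - 1)))
  have a6 := s1 (t - (l : ZMod (Fintype.card F - 1)))
  have a7 := s2 (t' - (r' : ZMod (Fintype.card F - 1)))
  have a8 := s2 (t' - (l' : ZMod (Fintype.card F - 1)))
  have hcl : ((r : ℝ) - l) ≤ ((Fintype.card F - 1 : ℕ) : ℝ) := by
    have h1 : r ≤ (Fintype.card F - 1) := by omega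
    have h2 : (r : ℝ) ≤ ((Fintype.card F - 1 : ℕ) : ℝ) := by exact_mod_cast h1
    have h3 : (0 : ℝ) ≤ l := Nat.cast_nonneg _
    linarith
  have hcl' : ((r' : ℝ) - l') ≤ ((Fintype.card F - 1 : ℕ) : ℝ) := by
    have h1 : r' ≤ (Fintype.card F - 1) := by omega
    have h2 : (r' : ℝ) ≤ ((Fintype.card F - 1 : ℕ) : ℝ) := by exact_mod_cast h1
    have h3 : (0 : ℝ) ≤ l' := Nat.cast_nonneg _
    linarith
  have hcg : (((Fintype.card F - 1 : ℕ) : ℝ) - 1) / 2 ≤ (r : ℝ) - l := by
    have h1 : (Fintype.card F - 1) + 2 * l ≤ 2 * r + 1 := by omega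
    have h2 : ((Fintype.card F - 1 : ℕ) : ℝ) + 2 * l ≤ 2 * r + 1 := by exact_mod_cast h1
    linarith
  have hcg' : (((Fintype.card F - 1 : ℕ) : ℝ) - 1) / 2 ≤ (r' : ℝ) - l' := by
    have h1 : (Fintype.card F - 1) + 2 * l' ≤ 2 * r' + 1 := by omega
    have h2 : ((Fintype.card F - 1 : ℕ) : ℝ) + 2 * l' ≤ 2 * r' + 1 := by exact_mod_cast h1
    linarith
  have b1 : lam ≤ 1 := by rw [hlam, div_le_one hNpos]; exact hcl
  have b2 : lam' ≤ 1 := by rw [hlam', div_le_one hNpos]; exact hcl'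
  have b3 : 2 / 5 ≤ lam := by rw [hlam, le_div_iff₀ hNpos]; linarith
  have b4 : 2 / 5 ≤ lam' := by rw [hlam', le_div_iff₀ hNpos]; linarith
  have a9 := abs_mul_le_of (a := lam') (A := 1) (abs_le.2 ⟨by linarith, b2⟩)
    (abs_le.2 (⟨by have := abs_le.1 a5; have := abs_le.1 a6; linarith,
      by have := abs_le.1 a5; have := abs_le.1 a6; linarith⟩ :
      -(2 * (((Oe F).card : ℝ) / 4000)) ≤ ((∑ X ∈ Oe F, saw (Fintype.card F - 1) (dlog α X + (t - (r : ZMod (Fintype.card F - 1))))) -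
        (∑ X ∈ Oe F, saw (Fintype.card F - 1) (dlog α X + (t - (l : ZMod (Fintype.card F - 1)))))) ∧
        ((∑ X ∈ Oe F, saw (Fintype.card F - 1) (dlog α X + (t - (r : ZMod (Fintype.card F - 1))))) -
        (∑ X ∈ Oe F, saw (Fintype.card F - 1) (dlog α X + (t - (l : ZMod (Fintype.card F - 1)))))) ≤ 2 * (((Oe F).card : ℝ) / 4000)))
  have a10 := abs_mul_le_of (a := lam) (A := 1) (abs_le.2 ⟨by linarith, b1⟩)
    (abs_le.2 (⟨by have := abs_le.1 a7; have := abs_le.1 a8; linarith,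
      by have := abs_le.1 a7; have := abs_le.1 a8; linarith⟩ :
      -(2 * (((Oe F).card : ℝ) / 4000)) ≤
        ((∑ X ∈ Oe F, saw (Fintype.card F - 1) (dlog β (1 - X) + (t' - (r' : ZMod (Fintype.card F - 1))))) -
        (∑ X ∈ Oe F, saw (Fintype.card F - 1) (dlog β (1 - X) + (t' - (l' : ZMod (Fintype.card F - 1)))))) ∧
        ((∑ X ∈ Oe F, saw (Fintype.card F - 1) (dlog β (1 - X) + (t' - (r' : ZMod (Fintype.card F - 1))))) -
        (∑ X ∈ Oe F, saw (Fintype.card F - 1) (dlog β (1 - X) + (t' - (l' : ZMod (Fintype.card F - 1)))))) ≤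
          2 * (((Oe F).card : ℝ) / 4000)))
  have b5 : (2 / 5) * (2 / 5) ≤ lam * lam' := mul_le_mul b3 b4 (by norm_num) (by linarith)
  have b6 : ((Oe F).card : ℝ) * ((2 / 5) * (2 / 5)) ≤ ((Oe F).card : ℝ) * (lam * lam') :=
    mul_le_mul_of_nonneg_left b5 hM.le
  have c1 := abs_le.1 a1
  have c2 := abs_le.1 a2
  have c3 := abs_le.1 a3
  have c4 := abs_le.1 a4
  have c9 := abs_le.1 a9
  have c10 := abs_le.1 a10
  linarith [c1.1, c2.2, c3.2, c4.1, c9.1, c10.1]

/-- The uniform statement for Golomb type constructions. -/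
theorem golomb_all : ∃ Q : ℕ, 4 ≤ Q ∧ ∀ (F : Type) [Field F] [Fintype F],
    Q ≤ Fintype.card F → ∀ α β : F, PrimElt α → PrimElt β →
    ∀ t t' : ZMod (Fintype.card F - 1), ∃ X Z : F, X ≠ 0 ∧ X ≠ 1 ∧ Z ≠ 0 ∧ Z ≠ 1 ∧
      (1 - X) * (1 - Z) = 1 - X * Z ∧
      (dlog α X + t).val + (dlog α Z + t).val =
        (dlog α X + dlog α Z + t).val + t.val ∧
      (dlog β (1 - X) + t').val + (dlog β (1 - Z) + t').val =
        (dlog β (1 - X) + dlog β (1 - Z) + t').val + t'.val := by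
  classical
  obtain ⟨Q1, h1, h1'⟩ := golomb_odd
  obtain ⟨Q2, h2, h2'⟩ := golomb_even
  refine ⟨max Q1 Q2, le_trans h1 (le_max_left _ _), ?_⟩
  intro F _ _ hcard α β hα hβ t t'
  by_cases h : (2 : F) = 0
  · obtain ⟨X, hX0, hX1, e1, e2⟩ := h2' F (le_trans (le_max_right _ _) hcard) α β hα hβ t t'
    refine ⟨X, X, hX0, hX1, hX0, hX1, ?_, e1, e2⟩
    linear_combination (X ^ 2 - X) * h
  · obtain ⟨u, hu0, hu1, hu2, e1, e2⟩ := h1' F (le_trans (le_max_left _ _) hcard) h α β hα hβ t t'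
    have f1 : 1 - (1 + u)⁻¹ = u / (1 + u) := by field_simp; ring
    have f2 : 1 - (1 - u)⁻¹ = -u / (1 - u) := by field_simp; ring
    refine ⟨(1 + u)⁻¹, (1 - u)⁻¹, inv_ne_zero hu1, ?_, inv_ne_zero hu2, ?_, ?_, e1, ?_⟩
    · intro h3
      rw [inv_eq_one] at h3
      exact hu0 (by linear_combination h3)
    · intro h3
      rw [inv_eq_one] at h3
      exact hu0 (by linear_combination -h3)
    · rw [f1, f2]
      field_simp
      ring
    · rw [f1, f2]
      exact e2

end Pool.Agent.Work.MP_9bdca2_co
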