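import Mathlib
import Pool.Agent.Work.MP_9bdca2_co.Golomb

/-!
# Welch type constructions: existence of a bad point
-/

set_option autoImplicit false
set_option linter.unusedSectionVars false

namespace Pool.Agent.Work.MP_9bdca2_co

open Finset ComplexConjugate

section

variable {p : ℕ} [Fact p.Prime]

/-- The parameter set. -/
def Ow (p : ℕ) [Fact p.Prime] : Finset (ZMod p) := univ \ {0, -1}

theorem mem_Ow {u : ZMod p} : u ∈ Ow p ↔ u ≠ 0 ∧ u ≠ -1 := by
  unfold Ow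
  simp

theorem card_Ow : (p : ℝ) - 3 ≤ ((Ow p).card : ℝ) := by
  have h1 : p ≤ (Ow p).card + 3 := by
    have := Finset.card_le_card_sdiff_add_card (s := univ) (t := ({0, -1} : Finset (ZMod p)))
    have h3 : ({0, -1} : Finset (ZMod p)).card ≤ 2 := Finset.card_le_two
    unfold Ow
    rw [card_univ, ZMod.card] at this
    omega
  have : (p : ℝ) ≤ (Ow p).card + 3 := by exact_mod_cast h1
  linarith

theorem sum_Ow_le (f : ZMod p → ℂ) (hf : ∀ u, ‖f u‖ ≤ 1) :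
    ‖∑ u ∈ Ow p, f u‖ ≤ ‖∑ u : ZMod p, f u‖ + 2 := by
  have h1 : ∑ u ∈ Ow p, f u = ∑ u : ZMod p, f u - ∑ u ∈ ({0, -1} : Finset (ZMod p)), f u := by
    unfold Ow
    rw [eq_sub_iff_add_eq, Finset.sum_sdiff (subset_univ _)]
  rw [h1]
  refine (norm_sub_le _ _).trans ?_
  have h2 := norm_sum_le_card ({0, -1} : Finset (ZMod p)) f (fun i _ => hf i)
  have h3 : ((({0, -1} : Finset (ZMod p)).card : ℕ) : ℝ) ≤ 2 := by exact_mod_cast Finset.card_le_two
  linarith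

theorem sum_Ow_inv (f : ZMod p → ℂ) : ∑ u ∈ Ow p, f u⁻¹ = ∑ u ∈ Ow p, f u := by
  have key : ∀ u ∈ Ow p, u⁻¹ ∈ Ow p := by
    intro u hu
    obtain ⟨h1, h3⟩ := mem_Ow.1 hu
    refine mem_Ow.2 ⟨inv_ne_zero h1, fun h => h3 ?_⟩
    rw [← inv_inv u, h, inv_neg, inv_one]
  refine Finset.sum_bij' (fun u _ => u⁻¹) (fun u _ => u⁻¹) key key ?_ ?_ ?_
  · intro u _; exact inv_inv u
  · intro u _; exact inv_inv u
  · intro u _; rfl

theorem one_add_ne' {u : ZMod p} (hu : u ∈ Ow p) : 1 + u ≠ 0 := by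
  intro h
  exact (mem_Ow.1 hu).2 (eq_neg_of_add_eq_zero_right h)

theorem inv_identity {u : ZMod p} (hu : u ≠ 0) : (1 + u⁻¹) / u⁻¹ = 1 + u := by
  field_simp
  ring

theorem inv_identity' {u : ZMod p} (hu : u ≠ 0) : 1 + u⁻¹ = (1 + u) / u := by
  field_simp
  ring

/-- The additive character `x ↦ e(c x)`. -/
noncomputable def ech (p : ℕ) [Fact p.Prime] (c : ZMod p) : AddChar (ZMod p) ℂ :=
  AddChar.mulShift ZMod.stdAddChar c

theorem ech_apply (c x : ZMod p) : ech p c x = ZMod.stdAddChar (c * x) := by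
  unfold ech
  rw [AddChar.mulShift_apply]

theorem ech_primitive {c : ZMod p} (hc : c ≠ 0) : (ech p c).IsPrimitive := by
  refine AddChar.IsPrimitive.of_ne_one ?_
  exact ZMod.isPrimitive_stdAddChar p hc

theorem wsum_H_aux {A : ZMod p} (hA : A ≠ 0) (m : ZMod p) {n : ZMod p} (hn : n ≠ 0) :
    ‖∑ u ∈ Ow p, (ZMod.stdAddChar (m * (A * (1 + u))) : ℂ) *
      ZMod.stdAddChar (n * (A * (1 + u⁻¹)))‖ ≤ 2 * (p : ℝ) ^ (3 / 4 : ℝ) + 3 := by
  have h1 : ∑ u ∈ Ow p, (ZMod.stdAddChar (m * (A * (1 + u))) : ℂ) *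
      ZMod.stdAddChar (n * (A * (1 + u⁻¹))) =
      (ZMod.stdAddChar (m * A + n * A) : ℂ) * ∑ u ∈ Ow p, (fun u => ech p 1 (m * A * u) *
        (if u = 0 then 0 else ech p 1 (n * A / u))) u := by
    rw [mul_sum]
    refine sum_congr rfl fun u hu => ?_
    simp only [if_neg (mem_Ow.1 hu).1, ech_apply, one_mul]
    rw [← AddChar.map_add_eq_mul, ← AddChar.map_add_eq_mul, ← AddChar.map_add_eq_mul]
    congr 1
    rw [div_eq_mul_inv]
    ring
  rw [h1, norm_mul, norm_std, one_mul]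
  refine (sum_Ow_le _ fun u => ?_).trans ?_
  · refine norm_mul_le_one (AddChar.norm_apply _ _).le ?_
    split_ifs
    · rw [norm_zero]; exact zero_le_one
    · exact (AddChar.norm_apply _ _).le
  · have h4 := le_of_pow_four (Nat.cast_nonneg _)
      (norm_kloosterman_le (ech p 1) (ech_primitive one_ne_zero) (m * A) (mul_ne_zero hn hA))
    rw [ZMod.card] at h4
    linarith

theorem wsum_H {A : ZMod p} (hA : A ≠ 0) {m n : ZMod p} (h : m ≠ 0 ∨ n ≠ 0) :
    ‖∑ u ∈ Ow p, (ZMod.stdAddChar (m * (A * (1 + u))) : ℂ) *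
      ZMod.stdAddChar (n * (A * (1 + u⁻¹)))‖ ≤ 2 * (p : ℝ) ^ (3 / 4 : ℝ) + 3 := by
  rcases h with h | h
  · rw [← sum_Ow_inv]
    have h1 : ∑ u ∈ Ow p, (ZMod.stdAddChar (m * (A * (1 + u⁻¹))) : ℂ) *
        ZMod.stdAddChar (n * (A * (1 + u⁻¹⁻¹))) =
        ∑ u ∈ Ow p, (ZMod.stdAddChar (n * (A * (1 + u))) : ℂ) *
        ZMod.stdAddChar (m * (A * (1 + u⁻¹))) := by
      refine sum_congr rfl fun u _ => ?_
      rw [inv_inv, mul_comm]
    rw [h1]
    exact wsum_H_aux hA n h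
  · exact wsum_H_aux hA m h

theorem wsum_H' {χ ψ : MulChar (ZMod p) ℂ} (h : χ ≠ 1 ∨ ψ ≠ 1) :
    ‖∑ u ∈ Ow p, χ (1 + u) * ψ ((1 + u) / u)‖ ≤ 2 * (p : ℝ) ^ (3 / 4 : ℝ) + 3 := by
  refine (sum_Ow_le _ fun u => norm_mul_le_one (norm_mulChar_le _ _) (norm_mulChar_le _ _)).trans ?_
  have h1 : ∑ u : ZMod p, χ (1 + u) * ψ ((1 + u) / u) =
      ψ⁻¹ (-1) * ∑ x : ZMod p, ψ⁻¹ x * (χ * ψ) (1 - x) := by
    have h3 : ∑ u : ZMod p, χ (1 + u) * ψ ((1 + u) / u) =
        ∑ x : ZMod p, χ (1 + -x) * ψ ((1 + -x) / -x) :=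
      (Equiv.sum_comp (Equiv.neg (ZMod p)) (fun u => χ (1 + u) * ψ ((1 + u) / u))).symm
    rw [h3, mul_sum]
    refine sum_congr rfl fun x _ => ?_
    rw [div_eq_mul_inv, map_mul, ← MulChar.inv_apply',
      show 1 + -x = 1 - x by ring, show -x = -1 * x by ring, map_mul, MulChar.mul_apply]
    ring
  rw [h1, norm_mul, norm_mulChar (by simp), one_mul]
  have h4 := norm_jacobi_le (χ := ψ⁻¹) (ψ := χ * ψ) (by
    by_cases hψ : ψ = 1
    · right
      subst hψ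
      rw [mul_one]
      simpa using h
    · exact Or.inl (inv_ne_one.2 hψ))
  have h5 := sqrt_le_rpow (card_ge_one (ZMod p))
  rw [ZMod.card] at h4 h5
  linarith

theorem wsum_Haa {A : ZMod p} (hA : A ≠ 0) {m : ZMod p} (hm : m ≠ 0) {χ : MulChar (ZMod p) ℂ}
    (h : χ ≠ 1) : ‖∑ u ∈ Ow p, (ZMod.stdAddChar (m * (A * (1 + u))) : ℂ) * χ (1 + u)‖ ≤
      2 * (p : ℝ) ^ (3 / 4 : ℝ) + 3 := by
  refine (sum_Ow_le _ fun u => norm_mul_le_one (norm_std _).le (norm_mulChar_le _ _)).trans ?_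
  have h1 : ∑ u : ZMod p, (ZMod.stdAddChar (m * (A * (1 + u))) : ℂ) * χ (1 + u) =
      ∑ x : ZMod p, χ x * ech p (m * A) x := by
    have h3 : ∑ x : ZMod p, χ x * ech p (m * A) x =
        ∑ u : ZMod p, χ (1 + u) * ech p (m * A) (1 + u) :=
      (Equiv.sum_comp (Equiv.addLeft (1 : ZMod p)) (fun x => χ x * ech p (m * A) x)).symm
    rw [h3]
    refine sum_congr rfl fun x _ => ?_
    rw [ech_apply, mul_comm, mul_assoc m A]
  rw [h1]
  have h4 := norm_gauss_le h (ech_primitive (mul_ne_zero hm hA))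
  have h5 := sqrt_le_rpow (card_ge_one (ZMod p))
  rw [ZMod.card] at h4 h5
  linarith

theorem wsum_Hab {A : ZMod p} (m : ZMod p) {χ : MulChar (ZMod p) ℂ}
    (h : χ ≠ 1) : ‖∑ u ∈ Ow p, (ZMod.stdAddChar (m * (A * (1 + u))) : ℂ) * χ ((1 + u) / u)‖ ≤
      2 * (p : ℝ) ^ (3 / 4 : ℝ) + 3 := by
  refine (sum_Ow_le _ fun u => norm_mul_le_one (norm_std _).le (norm_mulChar_le _ _)).trans ?_
  have h1 : ∑ u : ZMod p, (ZMod.stdAddChar (m * (A * (1 + u))) : ℂ) * χ ((1 + u) / u) =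
      ZMod.stdAddChar (m * A) * ∑ u : ZMod p, ech p (m * A) u * (χ (1 + u) * χ⁻¹ u) := by
    rw [mul_sum]
    refine sum_congr rfl fun x _ => ?_
    have h3 : (ZMod.stdAddChar (m * (A * (1 + x))) : ℂ) =
        ZMod.stdAddChar (m * A) * ZMod.stdAddChar (m * A * x) := by
      rw [← AddChar.map_add_eq_mul]
      congr 1
      ring
    rw [ech_apply, div_eq_mul_inv, map_mul χ, ← MulChar.inv_apply', h3]
    ring
  rw [h1, norm_mul, norm_std, one_mul]
  have h4 := le_of_pow_four (Nat.cast_nonneg _) (norm_conf_le h (ech p (m * A)))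
  rw [ZMod.card] at h4
  linarith

theorem wsum_Hba {A : ZMod p} (m : ZMod p) {χ : MulChar (ZMod p) ℂ}
    (h : χ ≠ 1) : ‖∑ u ∈ Ow p, (ZMod.stdAddChar (m * (A * (1 + u⁻¹))) : ℂ) * χ (1 + u)‖ ≤
      2 * (p : ℝ) ^ (3 / 4 : ℝ) + 3 := by
  rw [← sum_Ow_inv]
  have h1 : ∑ u ∈ Ow p, (ZMod.stdAddChar (m * (A * (1 + u⁻¹⁻¹))) : ℂ) * χ (1 + u⁻¹) =
      ∑ u ∈ Ow p, (ZMod.stdAddChar (m * (A * (1 + u))) : ℂ) * χ ((1 + u) / u) := by
    refine sum_congr rfl fun u hu => ?_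
    rw [inv_inv, inv_identity' (mem_Ow.1 hu).1]
  rw [h1]
  exact wsum_Hab m h

theorem wsum_Hbb {A : ZMod p} (hA : A ≠ 0) {m : ZMod p} (hm : m ≠ 0) {χ : MulChar (ZMod p) ℂ}
    (h : χ ≠ 1) : ‖∑ u ∈ Ow p, (ZMod.stdAddChar (m * (A * (1 + u⁻¹))) : ℂ) * χ ((1 + u) / u)‖ ≤
      2 * (p : ℝ) ^ (3 / 4 : ℝ) + 3 := by
  rw [← sum_Ow_inv]
  have h1 : ∑ u ∈ Ow p, (ZMod.stdAddChar (m * (A * (1 + u⁻¹⁻¹))) : ℂ) * χ ((1 + u⁻¹) / u⁻¹) =
      ∑ u ∈ Ow p, (ZMod.stdAddChar (m * (A * (1 + u))) : ℂ) * χ (1 + u) := by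
    refine sum_congr rfl fun u hu => ?_
    rw [inv_inv, inv_identity (mem_Ow.1 hu).1]
  rw [h1]
  exact wsum_Haa hA hm h

end

/-- One-based carries: representatives in `[1, N]`. -/
theorem carry_one {N : ℕ} [NeZero N] (x y : ZMod N) :
    (saw N (x + -1) + saw N (y + -1) - saw N (x + y + -1) - (-((N : ℝ) + 1) / (2 * N)) = -1 ∨
      saw N (x + -1) + saw N (y + -1) - saw N (x + y + -1) - (-((N : ℝ) + 1) / (2 * N)) = 0 ∨
      saw N (x + -1) + saw N (y + -1) - saw N (x + y + -1) - (-((N : ℝ) + 1) / (2 * N)) = 1) ∧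
    (saw N (x + -1) + saw N (y + -1) - saw N (x + y + -1) - (-((N : ℝ) + 1) / (2 * N)) = 0 →
      ((x + -1).val + 1) + ((y + -1).val + 1) = ((x + y + -1).val + 1)) := by
  have hN : (0 : ℝ) < N := Nat.cast_pos.2 (NeZero.pos N)
  have h0 : saw N (x + -1) + saw N (y + -1) - saw N (x + y + -1) - (-((N : ℝ) + 1) / (2 * N)) =
      (((x + -1).val : ℝ) + (y + -1).val + 1 - (x + y + -1).val) / N := by
    unfold saw
    field_simp
    ring
  have hA := ZMod.val_lt (x + -1)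
  have hB := ZMod.val_lt (y + -1)
  have hC := ZMod.val_lt (x + y + -1)
  have hmod : ((x + -1).val + (y + -1).val + 1) % N = (x + y + -1).val := by
    have h1 : (((x + -1).val + (y + -1).val + 1 : ℕ) : ZMod N) = x + y + -1 := by
      push_cast
      rw [ZMod.natCast_zmod_val, ZMod.natCast_zmod_val]
      ring
    rw [← h1, ZMod.val_natCast]
  set A := (x + -1).val
  set B := (y + -1).val
  set C := (x + y + -1).val
  have hcases : A + B + 1 = C ∨ A + B + 1 = C + N := by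
    have e1 := Nat.div_add_mod (A + B + 1) N
    have d1 : (A + B + 1) / N < 2 := by
      rw [Nat.div_lt_iff_lt_mul (NeZero.pos N)]; omega
    rw [hmod] at e1
    have c1 : (A + B + 1) / N = 0 ∨ (A + B + 1) / N = 1 := by
      generalize (A + B + 1) / N = k at d1 ⊢
      omega
    rcases c1 with c1 | c1 <;> rw [c1] at e1 <;> omega
  rw [h0]
  constructor
  · rcases hcases with h | h
    · right; left
      have : (A : ℝ) + B + 1 = C := by exact_mod_cast h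
      rw [div_eq_iff hN.ne']; linarith
    · right; right
      have : (A : ℝ) + B + 1 = C + N := by exact_mod_cast h
      rw [div_eq_iff hN.ne']; linarith
  · intro h
    rw [div_eq_zero_iff] at h
    rcases h with h | h
    · have : (A : ℝ) + B + 1 = C := by linarith
      have h3 : A + B + 1 = C := by exact_mod_cast this
      omega
    · exact absurd h hN.ne'

/-- Existence of a bad point for Welch type constructions. -/
theorem welch_bad : ∃ Q : ℕ, 4 ≤ Q ∧ ∀ (p : ℕ) [Fact p.Prime], Q ≤ p →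
    ∀ α A : ZMod p, PrimElt α → A ≠ 0 → ∀ t : ZMod p, ∃ u : ZMod p, u ≠ 0 ∧ 1 + u ≠ 0 ∧
      (A * (1 + u) + t).val + (A * (1 + u⁻¹) + t).val =
        (A * (1 + u) + A * (1 + u⁻¹) + t).val + t.val ∧
      ((dlog α (1 + u) + -1).val + 1) + ((dlog α ((1 + u) / u) + -1).val + 1) =
        (dlog α (1 + u) + dlog α ((1 + u) / u) + -1).val + 1 := by
  obtain ⟨Q, hQ⟩ := growth
  refine ⟨Q + 5000, by omega, ?_⟩
  intro p hp hcard α A hα hA t
  have hQq : Q ≤ p := by omega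
  have hcp : Fintype.card (ZMod p) = p := ZMod.card p
  have hne : NeZero (Fintype.card (ZMod p) - 1) := ⟨by rw [hcp]; omega⟩
  have hnep : NeZero p := ⟨by omega⟩
  have hg := hQ p hQq
  have hcardOw := card_Ow (p := p)
  have hq4 : (5000 : ℝ) ≤ (p : ℝ) := by
    have : 5000 ≤ p := by omega
    exact_mod_cast this
  have hOw : (Ow p).Nonempty := by
    rw [← Finset.card_pos]
    have : (0 : ℝ) < (Ow p).card := by linarith
    exact_mod_cast this
  have hlog : 0 ≤ Real.log p := Real.log_nonneg (by linarith)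
  have hB : (0 : ℝ) ≤ 2 * (p : ℝ) ^ (3 / 4 : ℝ) + 3 := by positivity
  have hKp : Lsaw p ≤ 1 + Real.log p := by
    have h1 := Lsaw_le p
    linarith
  have hK : Lsaw (Fintype.card (ZMod p) - 1) ≤ 1 + Real.log p := by
    have h1 := Lsaw_le (Fintype.card (ZMod p) - 1)
    have h3 : Real.log ((Fintype.card (ZMod p) - 1 : ℕ) : ℝ) ≤ Real.log p := by
      rw [hcp]
      apply Real.log_le_log
      · have : 0 < p - 1 := by omega
        exact_mod_cast this
      · exact_mod_cast Nat.sub_le p 1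
    linarith
  have mc : ∀ (m : ZMod (Fintype.card (ZMod p) - 1)) {x : ZMod p}, x ≠ 0 →
      (ZMod.stdAddChar (m * dlog α x) : ℂ) = mchar hα m x := fun m x hx =>
    (mchar_apply hα m hx).symm
  have ne1 : ∀ (m : ZMod (Fintype.card (ZMod p) - 1)), m ≠ 0 → mchar hα m ≠ 1 :=
    fun m hm => mchar_ne_one hα hm
  have hdiv : ∀ {u : ZMod p}, u ∈ Ow p → (1 + u) / u ≠ 0 := fun hu =>
    div_ne_zero (one_add_ne' hu) (mem_Ow.1 hu).1
  have hσ : |(-(((Fintype.card (ZMod p) - 1 : ℕ) : ℝ) + 1) /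
      (2 * ((Fintype.card (ZMod p) - 1 : ℕ) : ℝ)))| ≤ 1 / 2 + 1 / 4000 := by
    rw [hcp, Nat.cast_sub (by omega), Nat.cast_one, sub_add_cancel, neg_div, abs_neg, abs_of_nonneg
      (div_nonneg (by linarith) (by linarith)), div_le_iff₀ (by linarith)]
    linarith
  obtain ⟨u, hu, hu1, hu2⟩ := master (Ow p) hOw (N := p) (N' := Fintype.card (ZMod p) - 1)
    (fun u => A * (1 + u)) (fun u => A * (1 + u⁻¹))
    (fun u => dlog α (1 + u)) (fun u => dlog α ((1 + u) / u))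
    (2 * (p : ℝ) ^ (3 / 4 : ℝ) + 3) (1 + Real.log p) hB (by linarith) hKp hK
    (le_trans hg (by linarith))
    (fun m n hmn => wsum_H hA hmn)
    (fun m n hmn => by
      rw [sum_congr rfl fun u hu => by
        rw [mc m (one_add_ne' hu), mc n (hdiv hu)]]
      exact wsum_H' (hmn.imp (ne1 m) (ne1 n)))
    (fun m m' hm hm' => by
      rw [sum_congr rfl fun u hu => by rw [mc m' (one_add_ne' hu)]]
      exact wsum_Haa hA hm (ne1 m' hm'))
    (fun m m' hm hm' => by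
      rw [sum_congr rfl fun u hu => by rw [mc m' (hdiv hu)]]
      exact wsum_Hab m (ne1 m' hm'))
    (fun m m' hm hm' => by
      rw [sum_congr rfl fun u hu => by rw [mc m' (one_add_ne' hu)]]
      exact wsum_Hba m (ne1 m' hm'))
    (fun m m' hm hm' => by
      rw [sum_congr rfl fun u hu => by rw [mc m' (hdiv hu)]]
      exact wsum_Hbb hA hm (ne1 m' hm'))
    t t t (-1) (-1) (-1) (saw p t) _
    (le_trans (abs_saw_le _ _) (by norm_num)) hσ
    (fun u _ => (carry _ _ t).1) (fun u _ => (carry_one _ _).1)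
  exact ⟨u, (mem_Ow.1 hu).1, one_add_ne' hu, (carry _ _ t).2 hu1, (carry_one _ _).2 hu2⟩

end Pool.Agent.Work.MP_9bdca2_co
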